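import Pool.Agent.H30.AW.Targets
import Pool.Agent.H52.AV.LR1
import Pool.Agent.H69.AV.TRD

/-!
# TR2: the pairs of forms are parts of a system of parameters
-/

set_option autoImplicit false

namespace Pool.Agent.H51.AW

open MvPolynomial SC Pool.Agent.H27.LV Pool.Agent.H30.AV Pool.Agent.H30.AW Cardinal

theorem trdeg_union {k Ω : Type} [Field k] [Field Ω] [Algebra k Ω] (S T : Set Ω) :
    Algebra.trdeg k (IntermediateField.adjoin k (S ∪ T)) =
      Algebra.trdeg k (IntermediateField.adjoin k S) +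
        Algebra.trdeg (IntermediateField.adjoin k S)
          (IntermediateField.adjoin (IntermediateField.adjoin k S) T) := by
  rw [← IntermediateField.adjoin_adjoin_left]
  exact (trdeg_add_eq k (IntermediateField.adjoin k S)
    (A := IntermediateField.adjoin (IntermediateField.adjoin k S) T)).symm

/-- adding blocks of generators, with two relations in the blocks of `I` -/
theorem blocks {k Ω ι : Type} [Field k] [Field Ω] [Algebra k Ω] [DecidableEq ι] (W : Set Ω)
    (B : ι → Set Ω) (N : ℕ) (I : Finset ι)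
    (hI : ∀ F : IntermediateField k Ω, W ⊆ F → ∀ i ∈ I,
      Algebra.trdeg F (IntermediateField.adjoin F (B i)) + 2 ≤ (N : Cardinal))
    (hB : ∀ (F : IntermediateField k Ω) (i : ι),
      Algebra.trdeg F (IntermediateField.adjoin F (B i)) ≤ (N : Cardinal)) (T : Finset ι) :
    Algebra.trdeg k (IntermediateField.adjoin k (W ∪ ⋃ i ∈ T, B i)) +
        ((2 * (T ∩ I).card : ℕ) : Cardinal) ≤
      Algebra.trdeg k (IntermediateField.adjoin k W) + ((T.card * N : ℕ) : Cardinal) := by
  induction T using Finset.induction_on with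
  | empty =>
    have e : W ∪ ⋃ j ∈ (∅ : Finset ι), B j = W := by simp
    rw [e]
    simp
  | insert i T hi ih =>
    have e : W ∪ ⋃ j ∈ insert i T, B j = (W ∪ ⋃ j ∈ T, B j) ∪ B i := by
      rw [Finset.set_biUnion_insert, Set.union_comm (B i), Set.union_assoc]
    rw [e, trdeg_union]
    have hWF : W ⊆ (IntermediateField.adjoin k (W ∪ ⋃ j ∈ T, B j) : Set Ω) :=
      Set.subset_union_left.trans (IntermediateField.subset_adjoin _ _)
    rw [Finset.card_insert_of_notMem hi]
    by_cases hiI : i ∈ I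
    · have h1 := hI _ hWF i hiI
      rw [Finset.insert_inter_of_mem hiI,
        Finset.card_insert_of_notMem fun h => hi (Finset.mem_inter.1 h).1]
      refine le_trans (le_of_eq ?_) ((add_le_add ih h1).trans (le_of_eq ?_))
      · push_cast
        ring
      · push_cast
        ring
    · have h1 := hB (IntermediateField.adjoin k (W ∪ ⋃ j ∈ T, B j)) i
      rw [Finset.insert_inter_of_notMem hiI]
      refine le_trans (le_of_eq ?_) ((add_le_add ih h1).trans (le_of_eq ?_))
      · ring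
      · push_cast
        ring

/-- the count of the transcendence degrees -/
theorem count2 {k L Ω : Type} [Field k] [Field L] [Field Ω] [Algebra k L] [Algebra k Ω]
    [Algebra L Ω] [IsScalarTower k L Ω] {A : Type} [Fintype A] (α : A → L)
    (hα : AlgebraicIndependent k α) (E : IntermediateField k Ω) (lam : Ω) (β i : ℕ)
    (hE : Algebra.trdeg k E + (i : Cardinal) ≤ ((β + 1 + Fintype.card A : ℕ) : Cardinal))
    (halg : Algebra.IsAlgebraic (Algebra.adjoin E {lam}) Ω) :
    Algebra.trdeg L Ω + (i : Cardinal) ≤ ((β + 2 : ℕ) : Cardinal) := by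
  have h1 : Algebra.trdeg k L + Algebra.trdeg L Ω = Algebra.trdeg k Ω := trdeg_add_eq k L
  have h2 : Algebra.trdeg k E + Algebra.trdeg E Ω = Algebra.trdeg k Ω := trdeg_add_eq k E
  have h4 : Algebra.trdeg E Ω ≤ 1 := by
    have := Algebra.IsAlgebraic.trdeg_le_cardinalMk E ({lam} : Set Ω)
    rwa [Cardinal.mk_singleton] at this
  have h5 : (Fintype.card A : Cardinal) ≤ Algebra.trdeg k L := by
    have := hα.cardinalMk_le_trdeg
    rwa [Cardinal.mk_fintype] at this
  have h6 : (Algebra.trdeg L Ω + (i : Cardinal)) + (Fintype.card A : Cardinal) ≤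
      ((β + 2 : ℕ) : Cardinal) + (Fintype.card A : Cardinal) := by
    calc (Algebra.trdeg L Ω + (i : Cardinal)) + (Fintype.card A : Cardinal)
        ≤ (Algebra.trdeg L Ω + (i : Cardinal)) + Algebra.trdeg k L := by gcongr
      _ = (Algebra.trdeg k L + Algebra.trdeg L Ω) + (i : Cardinal) := by ring
      _ = (Algebra.trdeg k E + Algebra.trdeg E Ω) + (i : Cardinal) := by rw [h1, h2]
      _ = (Algebra.trdeg k E + (i : Cardinal)) + Algebra.trdeg E Ω := by ring
      _ ≤ ((β + 1 + Fintype.card A : ℕ) : Cardinal) + 1 := by gcongr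
      _ = _ := by push_cast; ring
  exact (Cardinal.add_le_add_iff_of_lt_aleph0 Cardinal.natCast_lt_aleph0).1 h6

theorem ev_TT {k L Ω : Type} [Field k] [Field L] [Field Ω] [Algebra k L] [Algebra L Ω] {n q : ℕ}
    (α : Aw q n → L) (c : Fin 2) (i : Fin q) (ζ : Zw n → Ω) :
    aeval ζ (ev α (TT k n q c i)) = ∑ s : Fin (n + 1), ∑ t : Fin (n + 1),
      algebraMap L Ω (α (Sum.inr (i, c, s))) * ζ (s, t) *
        algebraMap L Ω (α (Sum.inl (i, t))) := by
  unfold ev TT
  rw [eval₂_sum, map_sum]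
  refine Finset.sum_congr rfl fun s _ => ?_
  rw [eval₂_sum, map_sum]
  refine Finset.sum_congr rfl fun t _ => ?_
  rw [eval₂_mul, eval₂_mul, eval₂_X, eval₂_X, eval₂_C, map_X, map_mul, map_mul, aeval_C, aeval_C,
    aeval_X]

theorem tr2_main (hSG2 : T_SG2) (hLRB : T_LRB) {k L Ω : Type} [Field k] [CharZero k] [Field L]
    [Field Ω] [Algebra k L] [Algebra k Ω] [Algebra L Ω] [IsScalarTower k L Ω] (n q β : ℕ)
    (P : Ideal (MvPolynomial (Zw n) k)) (hP : P.IsPrime) (hPh : IsHom P) (hPA : Alt P)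
    (hPt : Algebra.trdeg k (MvPolynomial (Zw n) k ⧸ P) ≤ (β + 2 : ℕ)) (α : Aw q n → L)
    (hα : AlgebraicIndependent k α)
    (hgen : ∀ z : L, ∃ f g : MvPolynomial (Aw q n) k, aeval α g ≠ 0 ∧
      z * aeval α g = aeval α f) (I : Finset (Fin q)) (Q : Ideal (MvPolynomial (Zw n) L))
    (hPQ : ∀ g ∈ P, MvPolynomial.map (algebraMap k L) g ∈ Q)
    (hT : ∀ i ∈ I, ∀ c, ev α (TT k n q c i) ∈ Q)
    (ζ : Zw n → Ω) (hζQ : ∀ g ∈ Q, aeval ζ g = 0) (hζ0 : ζ ≠ 0)
    (hfrac : ∀ w : Ω, ∃ x y : MvPolynomial (Zw n) L, aeval ζ y ≠ 0 ∧ aeval ζ y * w = aeval ζ x) :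
    Algebra.trdeg L Ω + ((2 * I.card : ℕ) : Cardinal) ≤ ((β + 2 : ℕ) : Cardinal) := by
  classical
  have hζP : ∀ g ∈ P, aeval ζ g = 0 := by
    intro g hg
    have h1 := hζQ _ (hPQ g hg)
    rwa [aeval_map_algebraMap] at h1
  obtain ⟨x₀, hx₀⟩ : ∃ x₀, ζ x₀ ≠ 0 := by
    by_contra h
    push Not at h
    exact hζ0 (funext h)
  have hchar : CharZero Ω := charZero_of_injective_algebraMap (algebraMap k Ω).injective
  have hSG := hSG2 k Ω (Zw n) β P ζ hP hPh hPt hζP x₀ hx₀
  obtain ⟨W, hW⟩ : ∃ W : Zw n → Ω, W = fun x => ζ x / ζ x₀ := ⟨_, rfl⟩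
  rw [← hW] at hSG
  have hWx : ∀ x, W x * ζ x₀ = ζ x := fun x => by
    rw [hW]
    exact div_mul_cancel₀ _ hx₀
  have hanti : ∀ i j, W (i, j) = -W (j, i) := by
    intro i j
    have h1 := hζP _ (hPA i j)
    rw [map_add, aeval_X, aeval_X, ← hWx (i, j), ← hWx (j, i), ← add_mul] at h1
    exact eq_neg_of_add_eq_zero_left ((mul_eq_zero.1 h1).resolve_right hx₀)
  have hdiag : ∀ i, W (i, i) = 0 := by
    intro i
    have h1 := hanti i i
    exact self_eq_neg.1 h1
  have hW0 : W ≠ 0 := by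
    intro h
    have h1 := congrFun h x₀
    rw [hW] at h1
    simp only [Pi.zero_apply] at h1
    rw [div_self hx₀] at h1
    exact one_ne_zero h1
  -- the values of the variables
  obtain ⟨a, ha⟩ : ∃ a : Aw q n → Ω, a = fun v => algebraMap L Ω (α v) := ⟨_, rfl⟩
  obtain ⟨B, hB⟩ : ∃ B : Fin q → Set Ω, B = fun i => Set.range (fun t => a (Sum.inl (i, t))) ∪
    Set.range (fun t => a (Sum.inr (i, 0, t))) ∪ Set.range fun t => a (Sum.inr (i, 1, t)) :=
    ⟨_, rfl⟩
  have hbil : ∀ i ∈ I, ∀ c : Fin 2,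
      bil (fun t => a (Sum.inr (i, c, t))) W (fun t => a (Sum.inl (i, t))) = 0 := by
    intro i hi c
    have h1 := hζQ _ (hT i hi c)
    rw [ev_TT] at h1
    have h2 : ∑ s : Fin (n + 1), ∑ t : Fin (n + 1),
        algebraMap L Ω (α (Sum.inr (i, c, s))) * ζ (s, t) *
          algebraMap L Ω (α (Sum.inl (i, t))) =
        bil (fun t => a (Sum.inr (i, c, t))) W (fun t => a (Sum.inl (i, t))) * ζ x₀ := by
      unfold bil
      rw [Finset.sum_mul]
      refine Finset.sum_congr rfl fun s _ => ?_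
      rw [Finset.sum_mul]
      refine Finset.sum_congr rfl fun t _ => ?_
      rw [← hWx (s, t), ha]
      ring
    rw [h2] at h1
    exact (mul_eq_zero.1 h1).resolve_right hx₀
  have hblocks := blocks (Set.range W) B (3 * (n + 1)) I (fun F hF i hi => by
    rw [hB]
    exact hLRB k Ω n F W _ _ _ (fun p => hF ⟨p, rfl⟩) hanti hdiag hW0 (hbil i hi 0)
      (hbil i hi 1)) (fun F i => by
    obtain ⟨γ, hγ⟩ : ∃ γ : Fin (n + 1) ⊕ Fin (n + 1) ⊕ Fin (n + 1) → Ω,
      γ = Sum.elim (fun t => a (Sum.inl (i, t))) (Sum.elim (fun t => a (Sum.inr (i, 0, t)))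
        fun t => a (Sum.inr (i, 1, t))) := ⟨_, rfl⟩
    have hr : B i = Set.range γ := by
      rw [hγ, hB, Set.Sum.elim_range, Set.Sum.elim_range]
      exact Set.union_assoc _ _ _
    have h1 := Pool.Agent.H52.AV.trdeg_adjoin_le (F := F) γ Finset.univ (fun s =>
      IntermediateField.subset_adjoin _ _ ⟨s, Finset.mem_coe.2 (Finset.mem_univ s), rfl⟩)
    rw [hr]
    refine h1.trans (le_of_eq ?_)
    rw [Finset.card_univ, Fintype.card_sum, Fintype.card_sum, Fintype.card_fin]
    push_cast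
    ring) Finset.univ
  set E := IntermediateField.adjoin k (Set.range W ∪ ⋃ i ∈ (Finset.univ : Finset (Fin q)), B i)
    with hE
  have hWE : ∀ x, W x ∈ E := fun x =>
    IntermediateField.subset_adjoin _ _ (Or.inl ⟨x, rfl⟩)
  have hBE : ∀ i, ∀ x ∈ B i, x ∈ E := fun i x hx =>
    IntermediateField.subset_adjoin _ _ (Or.inr (Set.mem_iUnion₂.2 ⟨i, Finset.mem_univ i, hx⟩))
  have haE : ∀ v, a v ∈ E := by
    rintro (⟨i, t⟩ | ⟨i, c, t⟩)
    · refine hBE i _ ?_
      rw [hB]
      exact Or.inl (Or.inl ⟨t, rfl⟩)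
    · refine hBE i _ ?_
      rw [hB]
      fin_cases c
      · exact Or.inl (Or.inr ⟨t, rfl⟩)
      · exact Or.inr ⟨t, rfl⟩
  -- `L` is contained in `E`
  have hpoly : ∀ f : MvPolynomial (Aw q n) k, aeval a f ∈ E := by
    intro f
    induction f using MvPolynomial.induction_on with
    | C c =>
      rw [aeval_C]
      exact IntermediateField.algebraMap_mem E c
    | add f g hf hg => rw [map_add]; exact add_mem hf hg
    | mul_X f v hf => rw [map_mul, aeval_X]; exact mul_mem hf (haE v)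
  have hLE : ∀ z : L, algebraMap L Ω z ∈ E := by
    intro z
    obtain ⟨f, g, hg, hfg⟩ := hgen z
    have e : ∀ f : MvPolynomial (Aw q n) k, algebraMap L Ω (aeval α f) = aeval a f := by
      intro f
      rw [ha]
      exact (aeval_algebraMap_apply Ω α f).symm
    have h1 : algebraMap L Ω z * aeval a g = aeval a f := by
      rw [← e, ← e, ← map_mul, hfg]
    have h2 : aeval a g ≠ 0 := by
      rw [← e]
      exact fun h => hg ((algebraMap L Ω).injective (h.trans (map_zero _).symm))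
    have h3 : algebraMap L Ω z = aeval a f / aeval a g := by
      rw [eq_div_iff h2, h1]
    rw [h3]
    exact div_mem (hpoly f) (hpoly g)
  -- algebraic
  have hEB : ∀ x ∈ E, x ∈ Algebra.adjoin E {ζ x₀} := fun x hx =>
    Subalgebra.algebraMap_mem (Algebra.adjoin E {ζ x₀}) (⟨x, hx⟩ : E)
  have hlB : ζ x₀ ∈ Algebra.adjoin E {ζ x₀} := Algebra.subset_adjoin rfl
  have hB' : ∀ g : MvPolynomial (Zw n) L, aeval ζ g ∈ Algebra.adjoin E {ζ x₀} := by
    intro g
    induction g using MvPolynomial.induction_on with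
    | C c => rw [aeval_C]; exact hEB _ (hLE c)
    | add f g hf hg => rw [map_add]; exact add_mem hf hg
    | mul_X f v hf =>
      rw [map_mul, aeval_X]
      refine mul_mem hf ?_
      rw [← hWx v]
      exact mul_mem (hEB _ (hWE v)) hlB
  have halg : Algebra.IsAlgebraic (Algebra.adjoin E {ζ x₀}) Ω := by
    refine Pool.Agent.H69.AV.isAlg_of_quot _ fun w => ?_
    obtain ⟨x, y, hy, hxy⟩ := hfrac w
    exact ⟨_, hB' x, _, hB' y, hy, hxy⟩
  refine count2 α hα E (ζ x₀) β (2 * I.card) ?_ halg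
  rw [Finset.univ_inter] at hblocks
  refine hblocks.trans ?_
  calc Algebra.trdeg k (IntermediateField.adjoin k (Set.range W)) +
        (((Finset.univ : Finset (Fin q)).card * (3 * (n + 1)) : ℕ) : Cardinal)
      ≤ ((β + 1 : ℕ) : Cardinal) +
        (((Finset.univ : Finset (Fin q)).card * (3 * (n + 1)) : ℕ) : Cardinal) := by gcongr
    _ = _ := by
      have : Fintype.card (Aw q n) = (Finset.univ : Finset (Fin q)).card * (3 * (n + 1)) := by
        simp only [Fintype.card_sum, Fintype.card_prod, Fintype.card_fin, Finset.card_univ]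
        ring
      rw [this]
      push_cast
      ring

theorem pf_TR2 (hSG2 : T_SG2) (hLRB : T_LRB) : T_TR2 := by
  classical
  intro k _ _ n q β P hP hPh hPA hPt L _ _ α hα hgen I hIβ Q hQ hQh hPQ hT
  have hQ' := hQ
  have : IsDomain (MvPolynomial (Zw n) L ⧸ Q) := Ideal.Quotient.isDomain Q
  set R := MvPolynomial (Zw n) L ⧸ Q with hR
  set Ω := FractionRing R with hΩ
  let j : R →ₐ[L] Ω := IsScalarTower.toAlgHom L R Ω
  have hj : Function.Injective j := IsFractionRing.injective R Ω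
  let ζ : Zw n → Ω := fun z => j (Ideal.Quotient.mk Q (X z))
  have hζ : ∀ g : MvPolynomial (Zw n) L, aeval ζ g = j (Ideal.Quotient.mk Q g) := by
    intro g
    have h1 : (aeval ζ : MvPolynomial (Zw n) L →ₐ[L] Ω) = j.comp (Ideal.Quotient.mkₐ L Q) := by
      apply MvPolynomial.algHom_ext
      intro z
      rw [aeval_X]
      rfl
    rw [h1]
    rfl
  by_cases hζ0 : ζ = 0
  · have h1 : Function.Surjective (Algebra.ofId L R) := by
      intro r
      obtain ⟨g, rfl⟩ := Ideal.Quotient.mk_surjective r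
      refine ⟨constantCoeff g, ?_⟩
      apply hj
      rw [← hζ g, hζ0]
      show j (algebraMap L R (constantCoeff g)) = _
      rw [AlgHom.commutes]
      simp [aeval_zero]
    have h2 : Algebra.trdeg L R ≤ Algebra.trdeg L L :=
      trdeg_le_of_surjective (Algebra.ofId L R) h1
    have h3 : Algebra.trdeg L L = 0 := trdeg_eq_zero
    rw [h3] at h2
    have h4 : Algebra.trdeg L R = 0 := le_antisymm h2 (zero_le)
    rw [h4, zero_add]
    exact_mod_cast hIβ
  · have h1 : Algebra.trdeg L R ≤ Algebra.trdeg L Ω := trdeg_le_of_injective j hj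
    refine (add_le_add_left h1 _).trans (tr2_main hSG2 hLRB n q β P hP hPh hPA hPt α hα hgen I Q
      hPQ hT ζ (fun g hg => ?_) hζ0 fun w => ?_)
    · rw [hζ, Ideal.Quotient.eq_zero_iff_mem.2 hg, map_zero]
    · obtain ⟨x, y, hy, hxy⟩ := IsFractionRing.div_surjective (A := R) w
      obtain ⟨x', rfl⟩ := Ideal.Quotient.mk_surjective x
      obtain ⟨y', rfl⟩ := Ideal.Quotient.mk_surjective y
      have hy0 : j (Ideal.Quotient.mk Q y') ≠ 0 := fun h =>
        nonZeroDivisors.ne_zero hy (hj (h.trans (map_zero _).symm))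
      refine ⟨x', y', ?_, ?_⟩
      · rw [hζ]
        exact hy0
      · rw [hζ, hζ, ← hxy]
        show j (Ideal.Quotient.mk Q y') * (j (Ideal.Quotient.mk Q x') /
          j (Ideal.Quotient.mk Q y')) = _
        rw [mul_div_cancel₀ _ hy0]

end Pool.Agent.H51.AW
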