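import Pool.Agent.H51.AW.PS

/-!
# The additive bound of Weil, part 5: from a bound for all extensions to the bound of Weil
-/

set_option autoImplicit false

open Polynomial Finset

namespace Pool.Agent.H51.AW

/-- power sums which are bounded by `C r ^ k` come from numbers of absolute value at most `r` -/
theorem root_bound (s : Multiset ℂ) (B r : ℝ) (hr : 0 < r)
    (h : ∀ k : ℕ, 1 ≤ k → ‖(s.map fun ω => ω ^ k).sum‖ ≤ B * r ^ k) : ∀ w ∈ s, ‖w‖ ≤ r := by
  classical
  intro w hw
  by_contra hcon
  push Not at hcon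
  set G : ℂ[X] := ∏ v ∈ s.toFinset.erase w, (X - C v) with hG
  have hGw : G.eval w ≠ 0 := by
    rw [hG, eval_prod, Finset.prod_ne_zero_iff]
    intro v hv
    rw [eval_sub, eval_X, eval_C, sub_ne_zero]
    exact (Finset.ne_of_mem_erase hv).symm
  have hGv : ∀ v ∈ s.toFinset, v ≠ w → G.eval v = 0 := by
    intro v hv hvw
    rw [hG, eval_prod]
    apply Finset.prod_eq_zero (Finset.mem_erase.2 ⟨hvw, hv⟩)
    rw [eval_sub, eval_X, eval_C, sub_self]
  have h1 : ∀ k : ℕ, ∑ i ∈ range (G.natDegree + 1), G.coeff i * (s.map fun ω => ω ^ (k + i)).sum =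
      (s.count w : ℂ) * (w ^ k * G.eval w) := by
    intro k
    have h2 : ∑ i ∈ range (G.natDegree + 1), G.coeff i * (s.map fun ω => ω ^ (k + i)).sum =
        (s.map fun ω => ω ^ k * G.eval ω).sum := by
      have h3 : ∀ i ∈ range (G.natDegree + 1), G.coeff i * (s.map fun ω => ω ^ (k + i)).sum =
          ∑ v ∈ s.toFinset, (s.count v : ℂ) * (G.coeff i * v ^ (k + i)) := by
        intro i _
        rw [Finset.sum_multiset_map_count, Finset.mul_sum]
        refine Finset.sum_congr rfl fun v _ => ?_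
        rw [nsmul_eq_mul]
        ring
      rw [Finset.sum_congr rfl h3, Finset.sum_comm, Finset.sum_multiset_map_count]
      refine Finset.sum_congr rfl fun v _ => ?_
      rw [nsmul_eq_mul, eval_eq_sum_range, ← Finset.mul_sum]
      congr 1
      rw [Finset.mul_sum]
      refine Finset.sum_congr rfl fun i _ => ?_
      rw [pow_add]
      ring
    rw [h2, Finset.sum_multiset_map_count, Finset.sum_eq_single w]
    · rw [nsmul_eq_mul]
    · intro v hv hvw
      rw [hGv v hv hvw, mul_zero, smul_zero]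
    · intro hw2
      exact absurd (Multiset.mem_toFinset.2 hw) hw2
  set D : ℝ := ∑ i ∈ range (G.natDegree + 1), ‖G.coeff i‖ * (B * r ^ i) with hD
  have h4 : ∀ k : ℕ, 1 ≤ k → ‖w‖ ^ k * ‖G.eval w‖ ≤ D * r ^ k := by
    intro k hk
    have h5 : ‖(s.count w : ℂ) * (w ^ k * G.eval w)‖ ≤ D * r ^ k := by
      rw [← h1 k, hD, Finset.sum_mul]
      refine (norm_sum_le _ _).trans (Finset.sum_le_sum fun i _ => ?_)
      rw [norm_mul, mul_assoc]
      apply mul_le_mul_of_nonneg_left _ (norm_nonneg _)
      have := h (k + i) (by omega)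
      rw [pow_add] at this
      calc ‖(s.map fun ω => ω ^ (k + i)).sum‖ ≤ B * (r ^ k * r ^ i) := this
        _ = B * r ^ i * r ^ k := by ring
    rw [norm_mul, norm_mul, norm_pow] at h5
    have h6 : (1 : ℝ) ≤ ‖(s.count w : ℂ)‖ := by
      rw [Complex.norm_natCast]
      exact_mod_cast Multiset.count_pos.2 hw
    have h7 : 0 ≤ ‖w‖ ^ k * ‖G.eval w‖ := by positivity
    nlinarith
  have hx1 : 1 < ‖w‖ / r := by rw [lt_div_iff₀ hr, one_mul]; exact hcon
  have hGp : 0 < ‖G.eval w‖ := norm_pos_iff.2 hGw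
  obtain ⟨n, hn⟩ := pow_unbounded_of_one_lt (|D| / ‖G.eval w‖ + 1) hx1
  have hn0 : 1 ≤ n := by
    by_contra h0
    have h00 : n = 0 := by omega
    rw [h00, pow_zero] at hn
    have : 0 ≤ |D| / ‖G.eval w‖ := by positivity
    linarith
  have h8 := h4 n hn0
  have h9 : ‖w‖ ^ n = (‖w‖ / r) ^ n * r ^ n := by
    rw [← mul_pow, div_mul_cancel₀ _ hr.ne']
  rw [h9] at h8
  have hrn : 0 < r ^ n := pow_pos hr n
  have h10 : (‖w‖ / r) ^ n * ‖G.eval w‖ ≤ D := by
    have h11 : ((‖w‖ / r) ^ n * ‖G.eval w‖) * r ^ n ≤ D * r ^ n := by linarith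
    exact le_of_mul_le_mul_right h11 hrn
  have h12 : |D| / ‖G.eval w‖ * ‖G.eval w‖ = |D| := div_mul_cancel₀ _ hGp.ne'
  have h13 : (|D| / ‖G.eval w‖ + 1) * ‖G.eval w‖ < (‖w‖ / r) ^ n * ‖G.eval w‖ :=
    mul_lt_mul_of_pos_right hn hGp
  have h14 := le_abs_self D
  nlinarith

/-- from a bound for all extensions to the bound of Weil -/
theorem an (m : ℕ) (hm : 1 ≤ m) (a S : ℕ → ℂ) (r B : ℝ) (hr : 0 < r) (h0 : a 0 = 1)
    (hz : ∀ n, m ≤ n → a n = 0)
    (hrec : ∀ n : ℕ, 1 ≤ n → (n : ℂ) * a n = ∑ k ∈ Finset.Icc 1 n, S k * a (n - k))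
    (hS : ∀ k : ℕ, 1 ≤ k → ‖S k‖ ≤ B * r ^ k) : ‖S 1‖ ≤ ((m : ℝ) - 1) * r := by
  obtain ⟨d, rfl⟩ : ∃ d, m = d + 1 := ⟨m - 1, by omega⟩
  -- the polynomial
  set P : ℂ[X] := ∑ n ∈ range (d + 1), C (a n) * X ^ (d - n) with hP
  have hcoeff : ∀ k, P.coeff k = if k ≤ d then a (d - k) else 0 := by
    intro k
    rw [hP, finsetSum_coeff]
    simp only [coeff_C_mul, coeff_X_pow]
    split_ifs with hk
    · rw [Finset.sum_eq_single (d - k)]
      · rw [if_pos (by omega), mul_one]
      · intro b hb hbk
        rw [mem_range] at hb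
        rw [if_neg (by omega), mul_zero]
      · intro h
        rw [mem_range] at h
        omega
    · apply Finset.sum_eq_zero
      intro b hb
      rw [mem_range] at hb
      rw [if_neg (by omega), mul_zero]
  have hdeg : P.natDegree = d := by
    apply natDegree_eq_of_le_of_coeff_ne_zero
    · rw [natDegree_le_iff_coeff_eq_zero]
      intro N hN
      rw [hcoeff, if_neg (by omega)]
    · rw [hcoeff, if_pos le_rfl, Nat.sub_self, h0]
      exact one_ne_zero
  have hmon : P.Monic := by
    rw [Monic, leadingCoeff, hdeg, hcoeff, if_pos le_rfl, Nat.sub_self, h0]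
  have hsplit : (P.roots.map fun ω => X - C ω).prod = P := by
    have h1 := IsAlgClosed.splits P
    exact (h1.eq_prod_roots_of_monic hmon).symm
  have hcard : Multiset.card P.roots = d := by
    rw [← hdeg]
    exact (IsAlgClosed.splits P).natDegree_eq_card_roots.symm
  -- the series
  have hA : rv P = PowerSeries.mk a := by
    ext k
    rw [rv, Polynomial.coeff_coe, coeff_reverse, hdeg, PowerSeries.coeff_mk, hcoeff]
    by_cases hk : k ≤ d
    · rw [revAt_le hk, if_pos (by omega)]
      congr 1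
      omega
    · rw [revAt_eq_self_of_lt (by omega), if_neg hk, hz k (by omega)]
  have hSe : (PowerSeries.mk fun k => if k = 0 then 0 else S k) * rv P =
      PowerSeries.X * PowerSeries.derivative ℂ (rv P) := by
    rw [hA]
    ext n
    rcases n with _ | n
    · rw [PowerSeries.coeff_zero_eq_constantCoeff_apply, PowerSeries.coeff_zero_eq_constantCoeff_apply, map_mul,
        map_mul, PowerSeries.constantCoeff_X, ← PowerSeries.coeff_zero_eq_constantCoeff_apply,
        PowerSeries.coeff_mk, if_pos rfl]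
      ring
    · rw [PowerSeries.coeff_succ_X_mul, PowerSeries.coeff_derivative, PowerSeries.coeff_mk, PowerSeries.coeff_mul,
        Finset.Nat.sum_antidiagonal_eq_sum_range_succ_mk]
      have h2 := hrec (n + 1) (by omega)
      push_cast at h2
      rw [mul_comm (a (n + 1)), h2]
      symm
      refine Finset.sum_subset_zero_on_sdiff (fun k hk => ?_) (fun k hk => ?_) fun k hk => ?_
      · rw [Finset.mem_Icc] at hk
        rw [Finset.mem_range]
        omega
      · rw [Finset.mem_sdiff, Finset.mem_range, Finset.mem_Icc] at hk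
        have hk0 : k = 0 := by omega
        rw [PowerSeries.coeff_mk, if_pos hk0, zero_mul]
      · rw [Finset.mem_Icc] at hk
        rw [PowerSeries.coeff_mk, PowerSeries.coeff_mk, if_neg (by omega)]
  have hpw : PowerSeries.mk (fun k => if k = 0 then 0 else S k) = - psr P.roots := by
    have h1 : psr P.roots = pw P := by
      rw [← pw_prod, hsplit]
    have h2 : - PowerSeries.mk (fun k => if k = 0 then 0 else S k) = pw P := by
      apply pw_unique P hmon
      rw [neg_mul, hSe]
    rw [h1, ← h2, neg_neg]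
  have hSk : ∀ k : ℕ, 1 ≤ k → S k = - (P.roots.map fun ω => ω ^ k).sum := by
    intro k hk
    have h2 := congrArg (PowerSeries.coeff k) hpw
    rw [PowerSeries.coeff_mk, if_neg (by omega), map_neg, psr_coeff _ k hk] at h2
    exact h2
  have hroot : ∀ w ∈ P.roots, ‖w‖ ≤ r := by
    apply root_bound P.roots B r hr
    intro k hk
    have := hS k hk
    rwa [hSk k hk, norm_neg] at this
  rw [hSk 1 le_rfl, norm_neg]
  have h5 : ‖(P.roots.map fun ω => ω ^ 1).sum‖ ≤ (Multiset.card P.roots : ℝ) * r := by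
    have h6 : ∀ s : Multiset ℂ, (∀ w ∈ s, ‖w‖ ≤ r) → ‖(s.map fun ω => ω ^ 1).sum‖ ≤
        (Multiset.card s : ℝ) * r := by
      intro s
      induction s using Multiset.induction_on with
      | empty => intro _; simp
      | cons w s ih =>
        intro hs
        rw [Multiset.map_cons, Multiset.sum_cons, Multiset.card_cons, pow_one]
        have h7 := ih fun v hv => hs v (Multiset.mem_cons_of_mem hv)
        have h8 := hs w (Multiset.mem_cons_self w s)
        have h9 := norm_add_le w (s.map fun ω => ω ^ 1).sum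
        push_cast
        linarith
    exact h6 _ hroot
  rw [hcard] at h5
  push_cast
  linarith

end Pool.Agent.H51.AW
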