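import Pool.Agent.H51.AW.PS
import Pool.Agent.H63.BG.W_EP

/-!
# The additive bound of Weil, part 6: the multiplicative function and the traces
-/

set_option autoImplicit false

open Polynomial Finset

namespace Pool.Agent.H51.AW

open Pool.Agent.H23.BG

section

variable {F : Type} [Field F]

/-- the power sums of the roots of a monic polynomial -/
noncomputable def PP (g : F[X]) (i : ℕ) : F := if i = 0 then (g.natDegree : F) else PowerSeries.coeff i (pw g)

/-- the multiplicative function of the sum of `ψ ∘ f` -/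
noncomputable def xf (ψ : AddChar F ℂ) (f g : F[X]) : ℂ :=
  ψ (∑ i ∈ range (f.natDegree + 1), f.coeff i * PP g i)

theorem PP_one (i : ℕ) : PP (1 : F[X]) i = 0 := by
  rw [PP, pw_one]
  split_ifs <;> simp

theorem PP_mul (g h : F[X]) (hg : g.Monic) (hh : h.Monic) (i : ℕ) : PP (g * h) i = PP g i + PP h i := by
  rw [PP, PP, PP, pw_mul g h hg hh, hg.natDegree_mul hh]
  split_ifs <;> simp

theorem xf_one (ψ : AddChar F ℂ) (f : F[X]) : xf ψ f 1 = 1 := by
  rw [xf]
  simp only [PP_one, mul_zero, sum_const_zero, AddChar.map_zero_eq_one]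

theorem xf_mul (ψ : AddChar F ℂ) (f g h : F[X]) (hg : g.Monic) (hh : h.Monic) :
    xf ψ f (g * h) = xf ψ f g * xf ψ f h := by
  rw [xf, xf, xf, ← AddChar.map_add_eq_mul, ← Finset.sum_add_distrib]
  congr 1
  refine Finset.sum_congr rfl fun i _ => ?_
  rw [PP_mul g h hg hh]
  ring

theorem am_zero (ψ : AddChar F ℂ) (f : F[X]) : am F (xf ψ f) 0 = 1 := by
  have h : {g : F[X] | g.Monic ∧ g.natDegree = 0} = {1} := by
    ext g
    simp only [Set.mem_ofPred_eq, Set.mem_singleton_iff]
    constructor
    · rintro ⟨h1, h2⟩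
      exact eq_one_of_monic_natDegree_zero h1 h2
    · rintro rfl
      exact ⟨monic_one, natDegree_one⟩
  rw [am, h, finsum_mem_singleton, xf_one]

/-- the effect of the shift of one coefficient -/
theorem xf_shift (ψ : AddChar F ℂ) (f g : F[X]) (n : ℕ) (hg : g.Monic) (hn : g.natDegree = n)
    (hm : 1 ≤ f.natDegree) (hmn : f.natDegree ≤ n) (t : F) :
    xf ψ f (g + C t * X ^ (n - f.natDegree)) =
      ψ (- (f.leadingCoeff * ((f.natDegree : F) * t))) * xf ψ f g := by
  rw [xf, xf, ← AddChar.map_add_eq_mul]
  congr 1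
  rw [Finset.sum_range_succ, Finset.sum_range_succ _ (f.natDegree)]
  have h1 : ∀ i ≤ f.natDegree, PP (g + C t * X ^ (n - f.natDegree)) i =
      PP g i - if i = f.natDegree then (f.natDegree : F) * t else 0 := by
    intro i hi
    rw [PP, PP]
    split_ifs with h0 h2 h2
    · omega
    · rw [(monic_shift g n f.natDegree hg hn hm hmn t).2, hn, sub_zero]
    · rw [pw_shift g n f.natDegree hg hn hm hmn t i hi, if_pos h2]
    · rw [pw_shift g n f.natDegree hg hn hm hmn t i hi, if_neg h2]
  rw [h1 _ le_rfl, if_pos rfl]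
  have h2 : ∑ x ∈ range f.natDegree, f.coeff x * PP (g + C t * X ^ (n - f.natDegree)) x =
      ∑ x ∈ range f.natDegree, f.coeff x * PP g x := by
    refine Finset.sum_congr rfl fun i hi => ?_
    rw [mem_range] at hi
    rw [h1 i hi.le, if_neg hi.ne, sub_zero]
  rw [h2, leadingCoeff]
  ring

theorem am_van [Fintype F] (ψ : AddChar F ℂ) (hψ : ψ ≠ 1) (f : F[X]) (hm : 1 ≤ f.natDegree)
    (hc : (f.natDegree : F) ≠ 0) (n : ℕ) (hmn : f.natDegree ≤ n) : am F (xf ψ f) n = 0 := by
  have hl : f.leadingCoeff ≠ 0 := by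
    rw [Ne, leadingCoeff_eq_zero]
    rintro rfl
    simp at hm
  obtain ⟨u, hu⟩ : ∃ u, ψ u ≠ 1 := by
    by_contra hcon
    push Not at hcon
    exact hψ (DFunLike.ext _ _ fun x => by rw [hcon x]; rfl)
  set t : F := - (u / (f.leadingCoeff * (f.natDegree : F))) with ht
  have htu : - (f.leadingCoeff * ((f.natDegree : F) * t)) = u := by
    rw [ht]
    field_simp
  have hb : Set.BijOn (fun g : F[X] => g + C t * X ^ (n - f.natDegree))
      {g : F[X] | g.Monic ∧ g.natDegree = n} {g : F[X] | g.Monic ∧ g.natDegree = n} := by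
    refine ⟨?_, ?_, ?_⟩
    · rintro g ⟨h1, h2⟩
      exact monic_shift g n f.natDegree h1 h2 hm hmn t
    · intro g _ h _ hgh
      exact add_right_cancel hgh
    · rintro g ⟨h1, h2⟩
      refine ⟨g + C (-t) * X ^ (n - f.natDegree), monic_shift g n f.natDegree h1 h2 hm hmn (-t), ?_⟩
      simp only [map_neg]
      ring
  have h3 : am F (xf ψ f) n = ψ u * am F (xf ψ f) n := by
    conv_lhs => rw [am]
    rw [← finsum_mem_eq_of_bijOn (f := fun g => ψ u * xf ψ f g) _ hb, Pool.Agent.H63.BG.W_EP.am_eq,
      finsum_mem_eq_finite_toFinset_sum _ (Pool.Agent.H63.BG.W_EP.finG n), Finset.mul_sum]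
    rintro g ⟨h1, h2⟩
    rw [xf_shift ψ f g n h1 h2 hm hmn t, htu]
  have h4 : (1 - ψ u) * am F (xf ψ f) n = 0 := by linear_combination h3
  rcases mul_eq_zero.1 h4 with h5 | h5
  · exact absurd (sub_eq_zero.1 h5).symm hu
  · exact h5

end

section

variable {F : Type} [Field F] [PerfectField F] {E : Type} [Field E] [Algebra F E] [FiniteDimensional F E]

theorem trace_gen (y : E) (i : ℕ) (hi : 1 ≤ i) :
    Algebra.trace F (IntermediateField.adjoin F {y}) (IntermediateField.AdjoinSimple.gen F y ^ i) =
      PowerSeries.coeff i (pw (minpoly F y)) := by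
  classical
  have hy : IsIntegral F y := Algebra.IsIntegral.isIntegral y
  apply (algebraMap F (AlgebraicClosure F)).injective
  rw [trace_eq_sum_embeddings (AlgebraicClosure F)]
  rw [Fintype.sum_equiv (IntermediateField.algHomAdjoinIntegralEquiv F hy) _
    (fun x : { x // x ∈ (minpoly F y).aroots (AlgebraicClosure F) } => (x : AlgebraicClosure F) ^ i)]
  · rw [Finset.sum_mem_multiset _ _ (fun x => x ^ i) (fun x => rfl), Finset.sum_eq_multiset_sum,
      Multiset.toFinset_val, Multiset.dedup_eq_self.mpr]
    · have h1 : ((((minpoly F y).aroots (AlgebraicClosure F)).map fun ω => X - C ω).prod) =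
          (minpoly F y).map (algebraMap F (AlgebraicClosure F)) :=
        ((IsAlgClosed.splits _).eq_prod_roots_of_monic ((minpoly.monic hy).map _)).symm
      have h2 := pw_map (algebraMap F (AlgebraicClosure F)) (minpoly F y) (minpoly.monic hy)
      rw [← h1, pw_prod] at h2
      have h3 := congrArg (PowerSeries.coeff i) h2
      rw [psr_coeff _ _ hi, PowerSeries.coeff_map] at h3
      exact h3
    · apply nodup_roots
      exact (separable_map _).mpr (PerfectField.separable_of_irreducible (minpoly.irreducible hy))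
  · intro σ
    rw [map_pow]
    congr 1

theorem trace_pow (y : E) (i : ℕ) : Algebra.trace F E (y ^ i) =
    (Module.finrank F E / (minpoly F y).natDegree : ℕ) • PP (minpoly F y) i := by
  have hy : IsIntegral F y := Algebra.IsIntegral.isIntegral y
  set L := IntermediateField.adjoin F {y} with hL
  have h1 : Module.finrank F L = (minpoly F y).natDegree := IntermediateField.adjoin.finrank hy
  have h2 : Module.finrank F L * Module.finrank L E = Module.finrank F E :=
    Module.finrank_mul_finrank F L E
  have h3 : Module.finrank F E / (minpoly F y).natDegree = Module.finrank L E := by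
    rw [← h2, ← h1]
    exact Nat.mul_div_cancel_left _ Module.finrank_pos
  have h4 : algebraMap L E (IntermediateField.AdjoinSimple.gen F y ^ i) = y ^ i := by
    rw [map_pow, IntermediateField.AdjoinSimple.algebraMap_gen]
  rw [h3, ← h4, ← Algebra.trace_trace (S := L), Algebra.trace_algebraMap, map_nsmul]
  congr 1
  rw [PP]
  split_ifs with hi
  · rw [hi, pow_zero, ← h1]
    have := Algebra.trace_algebraMap (R := F) (S := L) (1 : F)
    rw [map_one] at this
    rw [this, nsmul_eq_mul, mul_one]
  · exact trace_gen y i (by omega)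

/-- the values at the minimal polynomials -/
theorem xf_minpoly (ψ : AddChar F ℂ) (f : F[X]) (y : E) :
    xf ψ f (minpoly F y) ^ (Module.finrank F E / (minpoly F y).natDegree) =
      ψ (Algebra.trace F E ((f.map (algebraMap F E)).eval y)) := by
  rw [xf, ← AddChar.map_nsmul_eq_pow]
  congr 1
  rw [eval_eq_sum_range, natDegree_map, map_sum, Finset.smul_sum]
  refine Finset.sum_congr rfl fun i _ => ?_
  rw [coeff_map, ← Algebra.smul_def, map_smul, trace_pow, smul_eq_mul, mul_smul_comm]

end

end Pool.Agent.H51.AW
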