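import Pool.Agent.H51.AW.ST
import Pool.Agent.H51.AW.AN
import Pool.Agent.H51.AW.LF
import Pool.Agent.H70.BG.W_EY
import Pool.Agent.H68.BG.W_NE

/-!
# The additive bound of Weil

`weil`: for a finite field `F`, a nontrivial additive character `ψ` of `F` and a polynomial `f` over
`F` whose degree `m ≥ 1` is not divisible by the characteristic, the sum of `ψ (f x)` over `x ∈ F` has
absolute value at most `(m - 1) √|F|`.
-/

set_option autoImplicit false

open Polynomial Finset

namespace Pool.Agent.H51.AW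

open Pool.Agent.H23.BG

/-- the bound with a constant for all extensions -/
theorem ext_bound (q m : ℕ) (hm : 1 ≤ m) : ∃ B : ℝ, 0 ≤ B ∧ ∀ (F E : Type) [Field F] [Fintype F]
    [Field E] [Fintype E] [Algebra F E], Fintype.card F = q → Nat.Coprime m q → ∀ f : E[X],
    f.natDegree = m → ∀ ψ : AddChar F ℂ, ψ ≠ 1 →
    ‖∑ y : E, ψ (Algebra.trace F E (f.eval y))‖ ≤ B * Real.sqrt (Fintype.card E) := by
  classical
  obtain ⟨B, hB, h⟩ := stepanov q m hm
  refine ⟨2 * (q * B), by positivity, ?_⟩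
  intro F E _ _ _ _ _ hF hmq f hf ψ hψ
  have hq : 0 < q := by rw [← hF]; exact Fintype.card_pos
  have hqR : (0 : ℝ) < q := by exact_mod_cast hq
  set Q : ℝ := (Fintype.card E : ℝ) with hQ
  set N : F → ℝ := fun a => ((univ.filter fun y : E => Algebra.trace F E (f.eval y) = a).card : ℝ) with hN
  have h1 : ∀ a, N a - Q / q ≤ B * Real.sqrt Q := by
    intro a
    have := h F E hF hmq f hf a (univ.filter fun y : E => Algebra.trace F E (f.eval y) = a)
      (fun x hx => (mem_filter.1 hx).2)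
    simp only [hN]
    linarith
  have h2 : ∑ a, N a = Q := by
    simp only [hN]
    rw [hQ, ← Finset.card_univ, ← Nat.cast_sum]
    congr 1
    exact (Finset.card_eq_sum_card_fiberwise (fun x _ => Finset.mem_univ _)).symm
  have h3 : ∑ a : F, (N a - Q / q) = 0 := by
    rw [Finset.sum_sub_distrib, h2, Finset.sum_const, Finset.card_univ, hF, nsmul_eq_mul]
    field_simp
    ring
  have h4 : ∑ a : F, |N a - Q / q| ≤ 2 * (q * B) * Real.sqrt Q := by
    have h5 : ∀ a : F, |N a - Q / q| ≤ 2 * (B * Real.sqrt Q) - (N a - Q / q) := by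
      intro a
      rw [abs_le]
      have h6 : 0 ≤ B * Real.sqrt Q := by positivity
      have := h1 a
      constructor
      · linarith
      · linarith
    refine (Finset.sum_le_sum fun a _ => h5 a).trans ?_
    rw [Finset.sum_sub_distrib, h3, Finset.sum_const, Finset.card_univ, hF, nsmul_eq_mul]
    apply le_of_eq
    ring
  have h7 : ∑ y : E, ψ (Algebra.trace F E (f.eval y)) = ∑ a : F, ψ a * ((N a - Q / q : ℝ) : ℂ) := by
    have h8 : ∑ a : F, ψ a = 0 := AddChar.sum_eq_zero_of_ne_one hψ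
    have h9 : ∑ y : E, ψ (Algebra.trace F E (f.eval y)) = ∑ a : F, ψ a * ((N a : ℝ) : ℂ) := by
      rw [← Finset.sum_fiberwise_of_maps_to (g := fun y => Algebra.trace F E (f.eval y)) (t := univ)
        (fun x _ => mem_univ _)]
      refine Finset.sum_congr rfl fun a _ => ?_
      simp only [hN]
      rw [Finset.sum_congr rfl (g := fun _ => ψ a) (fun x hx => by rw [(mem_filter.1 hx).2]),
        Finset.sum_const, nsmul_eq_mul, mul_comm]
      push_cast
      rfl
    rw [h9]
    have h10 : ∑ a : F, ψ a * ((N a - Q / q : ℝ) : ℂ) = ∑ a : F, ψ a * ((N a : ℝ) : ℂ) -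
        (∑ a : F, ψ a) * ((Q / q : ℝ) : ℂ) := by
      rw [Finset.sum_mul, ← Finset.sum_sub_distrib]
      refine Finset.sum_congr rfl fun a _ => ?_
      push_cast
      ring
    rw [h10, h8]
    ring
  rw [h7]
  refine (norm_sum_le _ _).trans (le_trans (Finset.sum_le_sum fun a _ => ?_) h4)
  rw [norm_mul, Complex.norm_real, Real.norm_eq_abs]
  have h11 : ‖ψ a‖ = 1 := AddChar.norm_apply ψ a
  rw [h11, one_mul]

/-- the bound of Weil for additive characters -/
theorem weil (F : Type) [Field F] [Fintype F] (ψ : AddChar F ℂ) (hψ : ψ ≠ 1) (f : F[X])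
    (hm : 1 ≤ f.natDegree) (hc : (f.natDegree : F) ≠ 0) :
    ‖∑ x : F, ψ (f.eval x)‖ ≤ ((f.natDegree : ℝ) - 1) * Real.sqrt (Fintype.card F) := by
  classical
  set q := Fintype.card F with hq
  obtain ⟨B, hB, h⟩ := ext_bound q f.natDegree hm
  have hcop : Nat.Coprime f.natDegree q := by
    obtain ⟨p, hp⟩ := CharP.exists F
    have hpp : Fact p.Prime := ⟨CharP.char_is_prime F p⟩
    obtain ⟨r, hr, hqr⟩ := FiniteField.card F p
    rw [hq, hqr]
    apply Nat.Coprime.pow_right
    rw [Nat.coprime_comm, Nat.Prime.coprime_iff_not_dvd hr]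
    intro hd
    exact hc ((CharP.cast_eq_zero_iff F p _).2 hd)
  have hq0 : (0 : ℝ) < q := by exact_mod_cast (Fintype.card_pos : 0 < Fintype.card F)
  have hr0 : 0 < Real.sqrt q := Real.sqrt_pos.2 hq0
  have hS : ∀ (E : Type) [Field E] [Fintype E] [Algebra F E], sm F (xf ψ f) (Module.finrank F E) =
      ∑ y : E, ψ (Algebra.trace F E ((f.map (algebraMap F E)).eval y)) := by
    intro E _ _ _
    rw [Pool.Agent.H70.BG.pf_W_EY F E (xf ψ f)]
    refine Finset.sum_congr rfl fun y _ => ?_
    exact xf_minpoly ψ f y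
  have hbd : ∀ k : ℕ, 1 ≤ k → ‖sm F (xf ψ f) k‖ ≤ B * Real.sqrt q ^ k := by
    intro k hk
    obtain ⟨E, _, _, _, hE, -⟩ := Pool.Agent.H68.BG.pf_W_NE F k hk
    rw [← hE, hS E]
    have h1 := h F E rfl hcop (f.map (algebraMap F E)) (natDegree_map _) ψ hψ
    refine h1.trans (le_of_eq ?_)
    congr 1
    rw [Module.card_eq_pow_finrank (K := F) (V := E)]
    push_cast
    rw [← hq, Real.sqrt_eq_rpow, Real.sqrt_eq_rpow, ← Real.rpow_natCast, ← Real.rpow_natCast,
      ← Real.rpow_mul hq0.le, ← Real.rpow_mul hq0.le, mul_comm]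
  have hS1 : sm F (xf ψ f) 1 = ∑ x : F, ψ (f.eval x) := by
    have h1 := hS F
    rw [Module.finrank_self] at h1
    rw [h1]
    refine Finset.sum_congr rfl fun y _ => ?_
    have h2 : Algebra.trace F F ((f.map (algebraMap F F)).eval y) = f.eval y := by
      rw [Algebra.trace_self_apply, Algebra.algebraMap_self, map_id]
    rw [h2]
  rw [← hS1]
  exact an f.natDegree hm (am F (xf ψ f)) (sm F (xf ψ f)) (Real.sqrt q) B hr0 (am_zero ψ f)
    (fun n hn => am_van ψ hψ f hm hc n hn)
    (fun n hn => Pool.Agent.H63.BG.W_EP.pf_W_EP F (xf ψ f) (xf_one ψ f) (xf_mul ψ f) n hn) hbd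

end Pool.Agent.H51.AW
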