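import Mathlib

/-!
# The additive bound of Weil, part 4: power sums by logarithmic derivatives
-/

set_option autoImplicit false

open Polynomial Finset

namespace Pool.Agent.H51.AW

section Ring

variable {R : Type} [CommRing R]

/-- `∑_{k ≥ 1} ω^k T^k` -/
noncomputable def geo (ω : R) : PowerSeries R := PowerSeries.mk fun k => if k = 0 then 0 else ω ^ k

theorem geo_mul (ω : R) : geo ω * (1 - PowerSeries.C ω * PowerSeries.X) =
    PowerSeries.C ω * PowerSeries.X := by
  ext n
  rw [mul_sub, mul_one, map_sub, ← mul_assoc]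
  rcases n with _ | n
  · simp [geo]
  · rw [PowerSeries.coeff_succ_mul_X, PowerSeries.coeff_succ_mul_X, mul_comm (geo ω), PowerSeries.coeff_C_mul,
      PowerSeries.coeff_C]
    rcases n with _ | n
    · simp [geo]
    · simp only [geo, PowerSeries.coeff_mk]
      rw [if_neg (by omega), if_neg (by omega), if_neg (by omega)]
      ring

/-- the product of `1 - ω T` -/
noncomputable def prd (s : Multiset R) : PowerSeries R :=
  (s.map fun ω => 1 - PowerSeries.C ω * PowerSeries.X).prod

/-- the generating series of the power sums -/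
noncomputable def psr (s : Multiset R) : PowerSeries R := (s.map geo).sum

theorem log_deriv (s : Multiset R) :
    PowerSeries.X * PowerSeries.derivative R (prd s) = - (psr s * prd s) := by
  induction s using Multiset.induction_on with
  | empty => simp [prd, psr]
  | cons ω s ih =>
    rw [prd, psr, Multiset.map_cons, Multiset.prod_cons, Multiset.map_cons, Multiset.sum_cons,
      ← prd, ← psr, Derivation.leibniz, smul_eq_mul, smul_eq_mul, mul_add]
    have h1 : PowerSeries.derivative R (1 - PowerSeries.C ω * PowerSeries.X) = - PowerSeries.C ω := by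
      rw [map_sub, Derivation.leibniz]
      simp
    rw [h1]
    have h2 : PowerSeries.X * ((1 - PowerSeries.C ω * PowerSeries.X) * PowerSeries.derivative R (prd s)) =
        (1 - PowerSeries.C ω * PowerSeries.X) * (PowerSeries.X * PowerSeries.derivative R (prd s)) := by ring
    rw [h2, ih]
    linear_combination prd s * geo_mul ω

theorem psr_coeff (s : Multiset R) (k : ℕ) (hk : 1 ≤ k) :
    PowerSeries.coeff k (psr s) = (s.map fun ω => ω ^ k).sum := by
  rw [psr, map_multiset_sum, Multiset.map_map]
  congr 1
  refine Multiset.map_congr rfl fun ω _ => ?_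
  simp only [Function.comp_apply, geo, PowerSeries.coeff_mk]
  rw [if_neg (by omega)]

theorem psr_coeff_zero (s : Multiset R) : PowerSeries.constantCoeff (psr s) = 0 := by
  rw [psr, map_multiset_sum, Multiset.map_map]
  apply Multiset.sum_eq_zero
  intro x hx
  rw [Multiset.mem_map] at hx
  obtain ⟨ω, _, rfl⟩ := hx
  simp [geo]

end Ring

section Fld

variable {F : Type} [Field F]

/-- the reversed polynomial as a power series -/
noncomputable def rv (g : F[X]) : PowerSeries F := (g.reverse : F[X])

theorem rv_const (g : F[X]) : PowerSeries.constantCoeff (rv g) = g.leadingCoeff := by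
  rw [rv, ← PowerSeries.coeff_zero_eq_constantCoeff_apply, Polynomial.coeff_coe, coeff_zero_reverse]

theorem rv_mul (g h : F[X]) : rv (g * h) = rv g * rv h := by
  rw [rv, rv, rv, reverse_mul_of_domain, Polynomial.coe_mul]

/-- the series of the power sums of the roots of a monic polynomial -/
noncomputable def pw (g : F[X]) : PowerSeries F :=
  - (PowerSeries.X * PowerSeries.derivative F (rv g) * (rv g)⁻¹)

theorem rv_inv (g : F[X]) (hg : g.Monic) : rv g * (rv g)⁻¹ = 1 := by
  apply PowerSeries.mul_inv_cancel
  rw [rv_const, hg.leadingCoeff]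
  exact one_ne_zero

theorem pw_mul_rv (g : F[X]) (hg : g.Monic) :
    pw g * rv g = - (PowerSeries.X * PowerSeries.derivative F (rv g)) := by
  rw [pw]
  linear_combination (-1 : PowerSeries F) * (PowerSeries.X * PowerSeries.derivative F (rv g)) * rv_inv g hg

theorem pw_unique (g : F[X]) (hg : g.Monic) (s : PowerSeries F)
    (h : s * rv g = - (PowerSeries.X * PowerSeries.derivative F (rv g))) : s = pw g := by
  have h1 : s * rv g * (rv g)⁻¹ = pw g * rv g * (rv g)⁻¹ := by rw [h, pw_mul_rv g hg]
  rwa [mul_assoc, rv_inv g hg, mul_one, mul_assoc, rv_inv g hg, mul_one] at h1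

theorem pw_const (g : F[X]) : PowerSeries.constantCoeff (pw g) = 0 := by
  rw [pw, map_neg, map_mul, map_mul, PowerSeries.constantCoeff_X]
  ring

theorem pw_mul (g h : F[X]) (hg : g.Monic) (hh : h.Monic) : pw (g * h) = pw g + pw h := by
  symm
  apply pw_unique _ (hg.mul hh)
  rw [rv_mul, Derivation.leibniz, smul_eq_mul, smul_eq_mul]
  linear_combination rv h * pw_mul_rv g hg + rv g * pw_mul_rv h hh

theorem pw_one : pw (1 : F[X]) = 0 := by
  have h := pw_mul (1 : F[X]) 1 monic_one monic_one
  rw [mul_one] at h
  have h2 : pw (1 : F[X]) + 0 = pw 1 + pw 1 := by rw [add_zero]; exact h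
  exact (add_left_cancel h2).symm

/-- the change of the power sums under a change of one coefficient -/
theorem rv_shift (g : F[X]) (n m : ℕ) (hg : g.Monic) (hn : g.natDegree = n) (hm : 1 ≤ m) (hmn : m ≤ n)
    (t : F) : rv (g + C t * X ^ (n - m)) = rv g + PowerSeries.C t * PowerSeries.X ^ m := by
  have hd : (g + C t * X ^ (n - m)).natDegree = n := by
    rw [← hn]
    apply natDegree_add_eq_left_of_natDegree_lt
    refine lt_of_le_of_lt (natDegree_C_mul_X_pow_le _ _) ?_
    omega
  ext k
  rw [rv, rv, Polynomial.coeff_coe, map_add, Polynomial.coeff_coe, coeff_reverse, coeff_reverse, hd, hn,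
    coeff_add, coeff_C_mul, coeff_X_pow, PowerSeries.coeff_C_mul, PowerSeries.coeff_X_pow]
  congr 2
  by_cases hk : k ≤ n
  · rw [revAt_le hk]
    by_cases hkm : k = m
    · rw [if_pos (by omega), if_pos hkm]
    · rw [if_neg (by omega), if_neg hkm]
  · rw [revAt_eq_self_of_lt (by omega), if_neg (by omega), if_neg (by omega)]

theorem monic_shift (g : F[X]) (n m : ℕ) (hg : g.Monic) (hn : g.natDegree = n) (hm : 1 ≤ m) (hmn : m ≤ n)
    (t : F) : (g + C t * X ^ (n - m)).Monic ∧ (g + C t * X ^ (n - m)).natDegree = n := by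
  have hlt : (C t * X ^ (n - m)).natDegree < g.natDegree := by
    refine lt_of_le_of_lt (natDegree_C_mul_X_pow_le _ _) ?_
    omega
  refine ⟨?_, ?_⟩
  · apply hg.add_of_left
    exact degree_lt_degree hlt
  · rw [natDegree_add_eq_left_of_natDegree_lt hlt, hn]

theorem pw_shift (g : F[X]) (n m : ℕ) (hg : g.Monic) (hn : g.natDegree = n) (hm : 1 ≤ m) (hmn : m ≤ n)
    (t : F) (k : ℕ) (hk : k ≤ m) : PowerSeries.coeff k (pw (g + C t * X ^ (n - m))) =
      PowerSeries.coeff k (pw g) - if k = m then (m : F) * t else 0 := by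
  obtain ⟨hM, hD⟩ := monic_shift g n m hg hn hm hmn t
  set g' := g + C t * X ^ (n - m) with hg'
  have h1 := pw_mul_rv g hg
  have h2 := pw_mul_rv g' hM
  have h3 : rv g' = rv g + PowerSeries.C t * PowerSeries.X ^ m := rv_shift g n m hg hn hm hmn t
  have h4 : PowerSeries.X * PowerSeries.derivative F (rv g') =
      PowerSeries.X * PowerSeries.derivative F (rv g) + (m : PowerSeries F) * PowerSeries.C t * PowerSeries.X ^ m := by
    rw [h3, map_add, Derivation.leibniz, Derivation.leibniz_pow]
    have e1 : PowerSeries.derivative F (PowerSeries.C t) = 0 := by simp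
    have e2 : PowerSeries.derivative F (PowerSeries.X : PowerSeries F) = 1 := by simp
    rw [e1, e2]
    obtain ⟨m', rfl⟩ : ∃ m', m = m' + 1 := ⟨m - 1, by omega⟩
    simp only [Nat.add_sub_cancel, smul_eq_mul, nsmul_eq_mul, mul_one, mul_zero, add_zero]
    ring
  have h5 : (pw g' - pw g) * rv g' = - (PowerSeries.X ^ m * (PowerSeries.C t * (pw g + (m : PowerSeries F)))) := by
    rw [sub_mul, h2, h4, h3]
    linear_combination (-1 : PowerSeries F) * h1
  have h6 : pw g' - pw g = - (PowerSeries.X ^ m * ((PowerSeries.C t * (pw g + (m : PowerSeries F))) * (rv g')⁻¹)) := by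
    have := rv_inv g' hM
    linear_combination (rv g')⁻¹ * h5 - (pw g' - pw g) * this
  have h7 : PowerSeries.coeff k (pw g') = PowerSeries.coeff k (pw g) + PowerSeries.coeff k (pw g' - pw g) := by
    rw [map_sub]; ring
  rw [h7, h6, map_neg, PowerSeries.coeff_X_pow_mul']
  by_cases hkm : k = m
  · rw [if_pos (by omega), if_pos hkm, hkm, Nat.sub_self, PowerSeries.coeff_zero_eq_constantCoeff_apply]
    simp only [map_mul, map_add, PowerSeries.constantCoeff_C, pw_const, map_natCast]
    have : PowerSeries.constantCoeff ((rv g')⁻¹) = 1 := by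
      rw [PowerSeries.constantCoeff_inv, rv_const, hM.leadingCoeff, inv_one]
    rw [this]
    ring
  · rw [if_neg (by omega), if_neg hkm]
    ring

theorem rv_prod (s : Multiset F) : rv (s.map fun ω => X - C ω).prod = prd s := by
  induction s using Multiset.induction_on with
  | empty =>
    have h1 : (1 : F[X]).reverse = 1 := by
      rw [← C_1, reverse_C]
    simp [prd, rv, h1]
  | cons ω s ih =>
    rw [Multiset.map_cons, Multiset.prod_cons, rv_mul, ih, prd, prd, Multiset.map_cons, Multiset.prod_cons]
    congr 1
    rw [rv]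
    have : (X - C ω : F[X]).reverse = 1 - C ω * X := by
      ext k
      rw [coeff_reverse, natDegree_X_sub_C]
      rcases k with _ | _ | k
      · simp [revAt_le, coeff_X]
      · simp [revAt_le, coeff_one, coeff_X]
      · rw [revAt_eq_self_of_lt (by omega)]
        simp [coeff_X, coeff_one, coeff_C]
    rw [this]
    simp

theorem pw_prod (s : Multiset F) : pw (s.map fun ω => X - C ω).prod = psr s := by
  symm
  apply pw_unique _ (monic_multiset_prod_of_monic _ _ fun ω _ => monic_X_sub_C ω)
  rw [rv_prod, log_deriv]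
  ring

theorem rv_map {L : Type} [Field L] (φ : F →+* L) (g : F[X]) : rv (g.map φ) = PowerSeries.map φ (rv g) := by
  ext k
  rw [PowerSeries.coeff_map, rv, rv, Polynomial.coeff_coe, Polynomial.coeff_coe, coeff_reverse,
    coeff_reverse, coeff_map, natDegree_map]

theorem pw_map {L : Type} [Field L] (φ : F →+* L) (g : F[X]) (hg : g.Monic) :
    pw (g.map φ) = PowerSeries.map φ (pw g) := by
  symm
  apply pw_unique _ (hg.map φ)
  have h := congrArg (PowerSeries.map φ) (pw_mul_rv g hg)
  rw [map_mul, map_neg, map_mul, PowerSeries.map_X] at h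
  rw [rv_map, h]
  congr 2
  ext k
  simp [PowerSeries.coeff_derivative]

end Fld

end Pool.Agent.H51.AW
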