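import Pool.Agent.H51.AW.Step

/-!
# The additive bound of Weil, part 3: the upper bound of Stepanov for the trace classes
-/

set_option autoImplicit false

open Polynomial Finset

namespace Pool.Agent.H51.AW

theorem stepanov (q m : ℕ) (hm : 1 ≤ m) : ∃ C : ℝ, 0 ≤ C ∧ ∀ (F E : Type) [Field F] [Fintype F]
    [Field E] [Fintype E] [Algebra F E], Fintype.card F = q → Nat.Coprime m q → ∀ f : E[X],
    f.natDegree = m → ∀ (a : F) (S : Finset E), (∀ x ∈ S, Algebra.trace F E (f.eval x) = a) →
    (S.card : ℝ) ≤ (Fintype.card E : ℝ) / q + C * Real.sqrt (Fintype.card E) := by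
  classical
  refine ⟨(m + (m * q + 1)) * 4 + (m + 2) ^ 2 * q, by positivity, ?_⟩
  intro F E _ _ _ _ _ hF hmq f hf a S hS
  obtain ⟨p, hp⟩ := CharP.exists F
  have hpp : Fact p.Prime := ⟨CharP.char_is_prime F p⟩
  obtain ⟨r, hr, hqr⟩ := FiniteField.card F p
  rw [hF] at hqr
  have hpE : CharP E p := charP_of_injective_algebraMap (algebraMap F E).injective p
  have hq2 : 2 ≤ q := by
    rw [← hF]
    exact Fintype.one_lt_card
  obtain ⟨n, hn⟩ : ∃ n, Module.finrank F E = n + 1 :=
    ⟨Module.finrank F E - 1, by have := Module.finrank_pos (R := F) (M := E); omega⟩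
  have hQ : Fintype.card E = q ^ (n + 1) := by
    rw [Module.card_eq_pow_finrank (K := F), hF, hn]
  set c := q ^ n with hc
  have hc1 : 1 ≤ c := Nat.one_le_pow _ _ (by omega)
  have hQc : Fintype.card E = q * c := by rw [hQ, hc]; ring
  set g := trp f q (n + 1) with hg
  have hgd : g.natDegree = m * c := by rw [hg, natDegree_trp f q n (by omega) hq2, hf]
  have hgx : ∀ x ∈ S, g.eval x = algebraMap F E a ∧ x ^ (q * c) = x := by
    intro x hx
    constructor
    · rw [← hS x hx, FiniteField.algebraMap_trace_eq_sum_pow, hn, hg, trp, eval_finsetSum]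
      refine Finset.sum_congr rfl fun j _ => ?_
      rw [eval_pow, Nat.card_eq_fintype_card, hF]
    · rw [← hQc]
      exact FiniteField.pow_card x
  have hG : Bd (m - 1) 0 (GG g (algebraMap F E a)) := by
    rw [hg, hqr, ← hf]
    exact GG_bd p f r (n + 1) _
  have hSQ : S.card ≤ q * c := by
    rw [← hQc]
    exact Finset.card_le_univ S
  have hsq : Real.sqrt (Fintype.card E : ℝ) = Real.sqrt (q * c) := by
    rw [hQc]; push_cast; rfl
  have hdiv : (Fintype.card E : ℝ) / q = c := by
    rw [hQc]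
    push_cast
    field_simp
  rw [hdiv, hsq]
  have hqc : (c : ℝ) ≤ q * c := by
    have : (1 : ℝ) ≤ q := by exact_mod_cast (by omega : 1 ≤ q)
    nlinarith [(Nat.cast_nonneg c : (0 : ℝ) ≤ c)]
  have hsqc : Real.sqrt c ≤ Real.sqrt (q * c) := Real.sqrt_le_sqrt hqc
  have hsqc1 : 1 ≤ Real.sqrt c := by
    rw [Real.one_le_sqrt]
    exact_mod_cast hc1
  set s := Nat.sqrt c with hs
  rcases Nat.lt_or_ge (m + 1) s with hlt | hge
  · -- the main case
    have hs1 : 1 ≤ s := by omega
    have hss : s * s ≤ c := Nat.sqrt_le c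
    have hss' : c < (s + 1) * (s + 1) := Nat.lt_succ_sqrt c
    have h1 := card_le p (r * (n + 1)) g (algebraMap F E a) m (m - 1) q c (s + (m * q + 1)) (q * s) hc1
      (by omega) hm (by omega) (by rw [← hQc, hQ, hqr, pow_mul])
      (Nat.mul_le_mul_left _ (le_trans (Nat.le_mul_of_pos_left s hs1) hss)) hgd hmq hG (by
        obtain ⟨m', rfl⟩ : ∃ m', m = m' + 1 := ⟨m - 1, by omega⟩
        rw [Nat.add_sub_cancel]
        have e1 : q * s * (c + (s + ((m' + 1) * q + 1))) + m' * (q * s) ^ 2 =
            q * (s * c + s * s + s * ((m' + 1) * q + 1) + m' * q * (s * s)) := by ring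
        have e2 : q * (s + ((m' + 1) * q + 1)) * c = q * (s * c + ((m' + 1) * q + 1) * c) := by ring
        rw [e1, e2]
        apply Nat.mul_lt_mul_of_pos_left _ (by omega)
        have e3 : m' * q * (s * s) ≤ m' * q * c := Nat.mul_le_mul_left _ hss
        have e4 : s * ((m' + 1) * q + 1) < q * (s * s) := by
          have : (m' + 1) * q + 1 < q * s := by
            have : q * (m' + 2) < q * s := Nat.mul_lt_mul_of_pos_left (by omega) (by omega)
            nlinarith
          calc s * ((m' + 1) * q + 1) < s * (q * s) := Nat.mul_lt_mul_of_pos_left this (by omega)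
            _ = q * (s * s) := by ring
        have e5 : q * (s * s) ≤ q * c := Nat.mul_le_mul_left _ hss
        nlinarith)
      S hgx
    have h2 : (S.card : ℝ) * (q * s) ≤ (m + (s + (m * q + 1))) * (q * c) := by exact_mod_cast h1
    have hqpos : (0 : ℝ) < q := by exact_mod_cast (by omega : 0 < q)
    have hspos : (1 : ℝ) ≤ s := by exact_mod_cast hs1
    have h3 : (S.card : ℝ) * s ≤ (m + (s + (m * q + 1))) * c := by
      have : q * ((S.card : ℝ) * s) ≤ q * ((m + (s + (m * q + 1))) * c) := by linarith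
      exact le_of_mul_le_mul_left this hqpos
    have h4 : (c : ℝ) ≤ s * (4 * Real.sqrt c) := by
      have e1 : (c : ℝ) = Real.sqrt c * Real.sqrt c := (Real.mul_self_sqrt (Nat.cast_nonneg c)).symm
      have e2 : Real.sqrt c ≤ s + 1 := by
        rw [Real.sqrt_le_left (by positivity)]
        have : (c : ℝ) < (s + 1) * (s + 1) := by exact_mod_cast hss'
        nlinarith
      nlinarith
    have h5 : (S.card : ℝ) * s ≤ (c + (m + (m * q + 1)) * (4 * Real.sqrt c)) * s := by
      have e1 : ((m : ℝ) + (m * q + 1)) * c ≤ (m + (m * q + 1)) * (s * (4 * Real.sqrt c)) :=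
        mul_le_mul_of_nonneg_left h4 (by positivity)
      nlinarith
    have h6 : (S.card : ℝ) ≤ c + (m + (m * q + 1)) * (4 * Real.sqrt c) :=
      le_of_mul_le_mul_right h5 (by linarith)
    have h7 : ((m : ℝ) + (m * q + 1)) * (4 * Real.sqrt c) ≤ ((m + (m * q + 1)) * 4 + (m + 2) ^ 2 * q) *
        Real.sqrt (q * c) := by
      have e1 : ((m : ℝ) + (m * q + 1)) * (4 * Real.sqrt c) ≤ (m + (m * q + 1)) * (4 * Real.sqrt (q * c)) :=
        mul_le_mul_of_nonneg_left (by linarith) (by positivity)
      have e2 : 0 ≤ ((m : ℝ) + 2) ^ 2 * q * Real.sqrt (q * c) := by positivity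
      nlinarith
    linarith
  · -- small fields
    have h1 : c < (m + 2) * (m + 2) := by
      have := Nat.lt_succ_sqrt c
      rw [← hs] at this
      exact lt_of_lt_of_le this (Nat.mul_le_mul (by omega) (by omega))
    have h2 : (S.card : ℝ) ≤ q * c := by exact_mod_cast hSQ
    have h3 : (c : ℝ) ≤ (m + 2) ^ 2 := by
      have : (c : ℝ) < (m + 2) * (m + 2) := by exact_mod_cast h1
      nlinarith
    have h4 : (q : ℝ) * c ≤ q * (m + 2) ^ 2 := mul_le_mul_of_nonneg_left h3 (by positivity)
    have h5 : (1 : ℝ) ≤ Real.sqrt (q * c) := hsqc1.trans hsqc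
    have h6 : (q : ℝ) * (m + 2) ^ 2 ≤ ((m + (m * q + 1)) * 4 + (m + 2) ^ 2 * q) * Real.sqrt (q * c) := by
      have e1 : ((m + 2 : ℝ)) ^ 2 * q * 1 ≤ (m + 2) ^ 2 * q * Real.sqrt (q * c) :=
        mul_le_mul_of_nonneg_left h5 (by positivity)
      have e2 : (0 : ℝ) ≤ (m + (m * q + 1)) * 4 * Real.sqrt (q * c) := by positivity
      nlinarith
    have : (0 : ℝ) ≤ c := Nat.cast_nonneg c
    linarith

end Pool.Agent.H51.AW
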