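import Pool.Agent.H51.AW.Tau

/-!
# The additive bound of Weil, part 2: the auxiliary polynomial of Stepanov
-/

set_option autoImplicit false

open Polynomial Finset

namespace Pool.Agent.H51.AW

variable {E : Type} [Field E]

/-- the trace polynomial `∑_{j<n} f ^ (q ^ j)` -/
noncomputable def trp (f : E[X]) (q n : ℕ) : E[X] := ∑ j ∈ range n, f ^ q ^ j

theorem natDegree_trp (f : E[X]) (q n : ℕ) (hf : 1 ≤ f.natDegree) (hq : 2 ≤ q) :
    (trp f q (n + 1)).natDegree = f.natDegree * q ^ n := by
  induction n with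
  | zero => simp [trp]
  | succ n ih =>
    rw [trp, sum_range_succ]
    have h1 : (∑ x ∈ range (n + 1), f ^ q ^ x).natDegree < (f ^ q ^ (n + 1)).natDegree := by
      change (trp f q (n + 1)).natDegree < _
      rw [ih, natDegree_pow, mul_comm]
      exact Nat.mul_lt_mul_of_pos_right (Nat.pow_lt_pow_right hq (Nat.lt_succ_self n)) hf
    rw [natDegree_add_eq_right_of_natDegree_lt h1, natDegree_pow, mul_comm]

/-- the expansion of the trace polynomial with the constant term replaced by `a` -/
noncomputable def GG (g : E[X]) (a : E) : E[X][X] := tau g - C g + C (C a)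

theorem GG_map (g : E[X]) (a x : E) (hx : g.eval x = a) :
    (GG g a).map (evalRingHom x) = taylor x g := by
  rw [GG, Polynomial.map_add, Polynomial.map_sub, tau_map, Polynomial.map_C, Polynomial.map_C]
  simp [hx]

theorem GG_bd (p : ℕ) [Fact p.Prime] [CharP E p] (f : E[X]) (r n : ℕ) (a : E) :
    Bd (f.natDegree - 1) 0 (GG (trp f (p ^ r) n) a) := by
  intro l
  rcases Nat.eq_zero_or_pos l with hl | hl
  · rw [hl, GG, coeff_add, coeff_sub, tau_coeff, hasseDeriv_zero', coeff_C_zero, coeff_C_zero, sub_self,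
      zero_add, natDegree_C]
    exact Nat.zero_le _
  · rw [GG, coeff_add, coeff_sub, coeff_C_of_ne_zero hl.ne', coeff_C_of_ne_zero hl.ne', sub_zero, add_zero,
      trp, tau_sum, finsetSum_coeff, zero_add]
    refine natDegree_sum_le_of_forall_le _ _ fun j _ => ?_
    rw [← pow_mul]
    exact tau_pow_coeff p f (r * j) l hl

/-- the map `k ↦ [T^l] (k (X + T) G (T) ^ i)` -/
noncomputable def Ph (G : E[X][X]) (l i : ℕ) : E[X] →ₗ[E] E[X] where
  toFun k := (tau k * G ^ i).coeff l
  map_add' k k' := by rw [tau_add, add_mul, coeff_add]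
  map_smul' c k := by
    rw [tau_smul, mul_assoc, coeff_C_mul, RingHom.id_apply, smul_eq_C_mul]

theorem Ph_deg (G : E[X][X]) (e : ℕ) (hG : Bd e 0 G) (l i D : ℕ) (k : E[X]) (hk : k.natDegree ≤ D) :
    (Ph G l i k).natDegree ≤ D + e * l := by
  have h := (Bd.tau (e := e) k D hk).mul (hG.pow i) l
  rw [add_zero] at h
  exact h

/-- the polynomial with given coefficients -/
noncomputable def pl (c : ℕ) : (Fin c → E) →ₗ[E] E[X] where
  toFun a := ∑ t : Fin c, monomial (t : ℕ) (a t)
  map_add' a b := by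
    rw [← Finset.sum_add_distrib]
    exact Finset.sum_congr rfl fun t _ => by rw [Pi.add_apply, map_add]
  map_smul' r a := by
    rw [RingHom.id_apply, Finset.smul_sum]
    exact Finset.sum_congr rfl fun t _ => by rw [Pi.smul_apply, map_smul]

theorem pl_coeff (c : ℕ) (a : Fin c → E) (t : Fin c) : (pl c a).coeff t = a t := by
  simp only [pl, LinearMap.coe_mk, AddHom.coe_mk, finsetSum_coeff, coeff_monomial]
  rw [Finset.sum_eq_single t]
  · simp
  · intro b _ hb
    rw [if_neg]
    exact fun h => hb (Fin.ext h)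
  · simp

theorem pl_deg (c : ℕ) (hc : 1 ≤ c) (a : Fin c → E) : (pl c a).natDegree < c := by
  have : (pl c a).natDegree ≤ c - 1 := by
    simp only [pl, LinearMap.coe_mk, AddHom.coe_mk]
    refine natDegree_sum_le_of_forall_le _ _ fun t _ => ?_
    refine (natDegree_monomial_le _).trans ?_
    have := t.2
    omega
  omega

/-- the auxiliary polynomial exists -/
theorem exists_aux (G : E[X][X]) (e q c K M : ℕ) (hG : Bd e 0 G) (hK : 1 ≤ K) (hc : 1 ≤ c)
    (hM : M * (c + K) + e * M ^ 2 < q * K * c) :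
    ∃ k : Fin q → Fin K → E[X], (∃ i j, k i j ≠ 0) ∧ (∀ i j, (k i j).natDegree < c) ∧
      ∀ l < M, ∑ i : Fin q, ∑ j : Fin K, Ph G l i (k i j) * X ^ (j : ℕ) = 0 := by
  classical
  let Λ : (Fin q → Fin K → Fin c → E) →ₗ[E] ((Σ l : Fin M, Fin (c + K + e * (l : ℕ))) → E) :=
    { toFun := fun a w => (∑ i : Fin q, ∑ j : Fin K, Ph G w.1 i (pl c (a i j)) * X ^ (j : ℕ)).coeff w.2
      map_add' := by
        intro a b
        funext w
        simp only [Pi.add_apply, map_add, add_mul, Finset.sum_add_distrib, coeff_add]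
      map_smul' := by
        intro r a
        funext w
        simp only [Pi.smul_apply, map_smul, RingHom.id_apply, smul_mul_assoc, ← Finset.smul_sum,
          coeff_smul] }
  have hker : LinearMap.ker Λ ≠ ⊥ := by
    apply LinearMap.ker_ne_bot_of_finrank_lt
    rw [Module.finrank_fintype_fun_eq_card, Fintype.card_sigma]
    have h1 : Module.finrank E (Fin q → Fin K → Fin c → E) = q * K * c := by
      rw [Module.finrank_pi_fintype]
      simp only [Module.finrank_pi_fintype, Module.finrank_self, Finset.sum_const, Finset.card_univ,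
        Fintype.card_fin, smul_eq_mul, mul_one]
      ring
    rw [h1]
    refine lt_of_le_of_lt ?_ hM
    calc ∑ l : Fin M, Fintype.card (Fin (c + K + e * (l : ℕ)))
        ≤ ∑ l : Fin M, (c + K + e * M) := Finset.sum_le_sum fun l _ => by
          rw [Fintype.card_fin]
          have := l.2
          have : e * (l : ℕ) ≤ e * M := Nat.mul_le_mul_left _ this.le
          omega
      _ = M * (c + K) + e * M ^ 2 := by
          rw [Finset.sum_const, Finset.card_univ, Fintype.card_fin, smul_eq_mul]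
          ring
  obtain ⟨a, ha, ha0⟩ := (Submodule.ne_bot_iff _).mp hker
  refine ⟨fun i j => pl c (a i j), ?_, fun i j => pl_deg c hc _, fun l hl => ?_⟩
  · by_contra hcon
    push Not at hcon
    apply ha0
    funext i j t
    have := hcon i j
    rw [← pl_coeff c (a i j) t, this]
    simp
  · have hdeg : (∑ i : Fin q, ∑ j : Fin K, Ph G l i (pl c (a i j)) * X ^ (j : ℕ)).natDegree <
        c + K + e * l := by
      have : (∑ i : Fin q, ∑ j : Fin K, Ph G l i (pl c (a i j)) * X ^ (j : ℕ)).natDegree ≤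
          (c - 1 + e * l) + (K - 1) := by
        refine natDegree_sum_le_of_forall_le _ _ fun i _ => ?_
        refine natDegree_sum_le_of_forall_le _ _ fun j _ => ?_
        refine natDegree_mul_le.trans ?_
        rw [natDegree_X_pow]
        have h1 := Ph_deg G e hG l i (c - 1) (pl c (a i j)) (by have := pl_deg c hc (a i j); omega)
        have h2 := j.2
        omega
      omega
    ext u
    rw [coeff_zero]
    by_cases hu : u < c + K + e * l
    · have := congrFun (LinearMap.mem_ker.mp ha) ⟨⟨l, hl⟩, ⟨u, hu⟩⟩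
      exact this
    · exact coeff_eq_zero_of_natDegree_lt (lt_of_lt_of_le hdeg (not_lt.mp hu))

/-- the auxiliary polynomial -/
noncomputable def aux (g : E[X]) (q K Q : ℕ) (k : Fin q → Fin K → E[X]) : E[X] :=
  ∑ i : Fin q, ∑ j : Fin K, k i j * g ^ (i : ℕ) * X ^ ((j : ℕ) * Q)

/-- the auxiliary polynomial vanishes to high order -/
theorem aux_dvd (p : ℕ) [Fact p.Prime] [CharP E p] (N : ℕ) (g : E[X]) (a : E) (q K M Q : ℕ)
    (hQ : Q = p ^ N) (hMQ : M ≤ Q) (k : Fin q → Fin K → E[X])
    (hk : ∀ l < M, ∑ i : Fin q, ∑ j : Fin K, Ph (GG g a) l i (k i j) * X ^ (j : ℕ) = 0)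
    (x : E) (hx : g.eval x = a) (hxQ : x ^ Q = x) : (X - C x) ^ M ∣ aux g q K Q k := by
  have key : (X : E[X]) ^ M ∣ taylor x (aux g q K Q k) := by
    have h1 : taylor x (aux g q K Q k) = ∑ i : Fin q, ∑ j : Fin K,
        (taylor x (k i j) * taylor x g ^ (i : ℕ)) * (X ^ Q + C x) ^ (j : ℕ) := by
      rw [aux, map_sum]
      refine Finset.sum_congr rfl fun i _ => ?_
      rw [map_sum]
      refine Finset.sum_congr rfl fun j _ => ?_
      rw [taylor_mul, taylor_mul, taylor_pow, taylor_pow, taylor_X, mul_comm (j : ℕ) Q, pow_mul]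
      congr 2
      rw [hQ, add_pow_char_pow, ← C_pow, ← hQ, hxQ]
    have h2 : (X : E[X]) ^ M ∣ taylor x (aux g q K Q k) - ∑ i : Fin q, ∑ j : Fin K,
        (taylor x (k i j) * taylor x g ^ (i : ℕ)) * C x ^ (j : ℕ) := by
      rw [h1, ← Finset.sum_sub_distrib]
      refine Finset.dvd_sum fun i _ => ?_
      rw [← Finset.sum_sub_distrib]
      refine Finset.dvd_sum fun j _ => ?_
      rw [← mul_sub]
      apply Dvd.dvd.mul_left
      refine (pow_dvd_pow X hMQ).trans ?_
      refine Dvd.dvd.trans ?_ (sub_dvd_pow_sub_pow _ _ _)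
      rw [add_sub_cancel_right]
    have h3 : (X : E[X]) ^ M ∣ ∑ i : Fin q, ∑ j : Fin K,
        (taylor x (k i j) * taylor x g ^ (i : ℕ)) * C x ^ (j : ℕ) := by
      rw [X_pow_dvd_iff]
      intro l hl
      have h4 := congrArg (fun P => P.eval x) (hk l hl)
      simp only [eval_zero] at h4
      rw [← h4, finsetSum_coeff, eval_finsetSum]
      refine Finset.sum_congr rfl fun i _ => ?_
      rw [finsetSum_coeff, eval_finsetSum]
      refine Finset.sum_congr rfl fun j _ => ?_
      rw [← C_pow, coeff_mul_C, eval_mul, eval_pow, eval_X]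
      congr 1
      change _ = ((tau (k i j) * GG g a ^ (i : ℕ)).coeff l).eval x
      have h5 : ((tau (k i j) * GG g a ^ (i : ℕ)).coeff l).eval x =
          ((tau (k i j) * GG g a ^ (i : ℕ)).map (evalRingHom x)).coeff l := by
        rw [coeff_map]; rfl
      rw [h5, Polynomial.map_mul, Polynomial.map_pow, tau_map, GG_map g a x hx]
    have h4 := dvd_add h2 h3
    rwa [sub_add_cancel] at h4
  obtain ⟨r, hr⟩ := key
  refine ⟨taylor (-x) r, ?_⟩
  have h1 := congrArg (taylor (-x)) hr
  rw [taylor_taylor, neg_add_cancel, taylor_zero, taylor_mul, taylor_pow, taylor_X] at h1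
  rw [h1, C_neg, ← sub_eq_add_neg]

theorem aux_ne_zero (g : E[X]) (m q c K : ℕ) (hc : 1 ≤ c) (hg0 : g ≠ 0) (hg : g.natDegree = m * c)
    (hmq : Nat.Coprime m q) (k : Fin q → Fin K → E[X]) (hk : ∃ i j, k i j ≠ 0)
    (hkd : ∀ i j, (k i j).natDegree < c) : aux g q K (q * c) k ≠ 0 := by
  classical
  set t : Fin q × Fin K → E[X] := fun w => k w.1 w.2 * g ^ (w.1 : ℕ) * X ^ ((w.2 : ℕ) * (q * c)) with ht
  have h1 : aux g q K (q * c) k = ∑ w : Fin q × Fin K, t w := by
    rw [aux, Fintype.sum_prod_type]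
  have hdeg : ∀ w, t w ≠ 0 → (t w).natDegree = (k w.1 w.2).natDegree + c * (w.1 * m + w.2 * q) := by
    intro w hw
    have hk0 : k w.1 w.2 ≠ 0 := by
      intro h
      apply hw
      rw [ht]
      simp [h]
    rw [ht]
    simp only
    rw [natDegree_mul (mul_ne_zero hk0 (pow_ne_zero _ hg0)) (pow_ne_zero _ X_ne_zero),
      natDegree_mul hk0 (pow_ne_zero _ hg0), natDegree_pow, natDegree_X_pow, hg]
    ring
  have hpair : Set.Pairwise {w | w ∈ (univ : Finset (Fin q × Fin K)) ∧ t w ≠ 0} (Function.onFun Ne (degree ∘ t)) := by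
    intro w hw w' hw' hne heq
    simp only [Function.comp_apply] at heq
    have hn : (t w).natDegree = (t w').natDegree := natDegree_eq_of_degree_eq heq
    rw [hdeg w hw.2, hdeg w' hw'.2] at hn
    have h2 := hkd w.1 w.2
    have h3 := hkd w'.1 w'.2
    have h4 : (w.1 : ℕ) * m + w.2 * q = w'.1 * m + w'.2 * q := by
      have e1 : ((k w.1 w.2).natDegree + c * (w.1 * m + w.2 * q)) / c = w.1 * m + w.2 * q := by
        rw [Nat.add_mul_div_left _ _ hc, Nat.div_eq_of_lt h2, zero_add]
      have e2 : ((k w'.1 w'.2).natDegree + c * (w'.1 * m + w'.2 * q)) / c = w'.1 * m + w'.2 * q := by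
        rw [Nat.add_mul_div_left _ _ hc, Nat.div_eq_of_lt h3, zero_add]
      rw [← e1, ← e2, hn]
    have h5 : (w.1 : ℕ) = w'.1 := by
      have h6 : (w.1 : ℕ) * m ≡ w'.1 * m [MOD q] := by
        have h7 : (w.1 : ℕ) * m + w.2 * q ≡ w'.1 * m + w'.2 * q [MOD q] := by rw [h4]
        have h8 : (w.1 : ℕ) * m + w.2 * q ≡ w.1 * m [MOD q] := by
          simp [Nat.ModEq]
        have h9 : (w'.1 : ℕ) * m + w'.2 * q ≡ w'.1 * m [MOD q] := by
          simp [Nat.ModEq]
        exact h8.symm.trans (h7.trans h9)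
      have h7 : (w.1 : ℕ) ≡ w'.1 [MOD q] := Nat.ModEq.cancel_right_of_coprime hmq.symm h6
      rw [Nat.ModEq, Nat.mod_eq_of_lt w.1.2, Nat.mod_eq_of_lt w'.1.2] at h7
      exact h7
    have h6 : (w.2 : ℕ) = w'.2 := by
      rw [h5] at h4
      have hq : 0 < q := lt_of_le_of_lt (Nat.zero_le _) w.1.2
      exact Nat.eq_of_mul_eq_mul_right hq (Nat.add_left_cancel h4)
    exact hne (Prod.ext (Fin.ext h5) (Fin.ext h6))
  obtain ⟨i, j, hij⟩ := hk
  intro h0
  rw [h1] at h0
  have h2 := degree_sum_eq_of_disjoint t univ hpair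
  rw [h0, degree_zero] at h2
  have h3 : degree (t (i, j)) ≤ ⊥ := by
    rw [h2]
    exact Finset.le_sup (f := fun w => degree (t w)) (mem_univ (i, j))
  rw [le_bot_iff, degree_eq_bot] at h3
  rw [ht] at h3
  simp only [mul_eq_zero, pow_eq_zero_iff', X_ne_zero, false_and, or_false] at h3
  rcases h3 with h3 | h3
  · exact hij h3
  · exact hg0 h3.1

theorem aux_deg (g : E[X]) (m q c K : ℕ) (hq : 1 ≤ q) (hm : 1 ≤ m)
    (hg : g.natDegree = m * c) (k : Fin q → Fin K → E[X])
    (hkd : ∀ i j, (k i j).natDegree < c) : (aux g q K (q * c) k).natDegree ≤ (m + K) * (q * c) := by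
  rw [aux]
  refine natDegree_sum_le_of_forall_le _ _ fun i _ => ?_
  refine natDegree_sum_le_of_forall_le _ _ fun j _ => ?_
  refine natDegree_mul_le.trans ?_
  rw [natDegree_X_pow]
  have h1 : (k i j * g ^ (i : ℕ)).natDegree ≤ c + (q - 1) * (m * c) := by
    refine natDegree_mul_le.trans (add_le_add (hkd i j).le ?_)
    refine natDegree_pow_le.trans ?_
    rw [hg]
    exact Nat.mul_le_mul_right _ (by have := i.2; omega)
  have h2 : c + (q - 1) * (m * c) ≤ m * (q * c) := by
    obtain ⟨q', rfl⟩ : ∃ q', q = q' + 1 := ⟨q - 1, by omega⟩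
    rw [Nat.add_sub_cancel]
    have : c ≤ m * c := Nat.le_mul_of_pos_left c hm
    calc c + q' * (m * c) ≤ m * c + q' * (m * c) := by omega
      _ = m * ((q' + 1) * c) := by ring
  have h3 : (j : ℕ) * (q * c) ≤ K * (q * c) := Nat.mul_le_mul_right _ j.2.le
  calc _ ≤ m * (q * c) + K * (q * c) := add_le_add (h1.trans h2) h3
    _ = _ := by ring

/-- the number of points -/
theorem card_le (p : ℕ) [Fact p.Prime] [CharP E p] (N : ℕ) (g : E[X]) (a : E) (m e q c K M : ℕ)
    (hc : 1 ≤ c) (hK : 1 ≤ K) (hm : 1 ≤ m) (hq : 1 ≤ q)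
    (hQ : q * c = p ^ N) (hMQ : M ≤ q * c) (hg : g.natDegree = m * c) (hmq : Nat.Coprime m q)
    (hG : Bd e 0 (GG g a)) (hM : M * (c + K) + e * M ^ 2 < q * K * c)
    (S : Finset E) (hS : ∀ x ∈ S, g.eval x = a ∧ x ^ (q * c) = x) :
    S.card * M ≤ (m + K) * (q * c) := by
  classical
  obtain ⟨k, hk0, hkd, hk⟩ := exists_aux (GG g a) e q c K M hG hK hc hM
  have hg0 : g ≠ 0 := by
    intro h
    rw [h, natDegree_zero] at hg
    have : 0 < m * c := Nat.mul_pos (by omega) (by omega)
    omega
  have hA0 := aux_ne_zero g m q c K hc hg0 hg hmq k hk0 hkd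
  have hAd := aux_deg g m q c K hq hm hg k hkd
  have h1 : ∀ x ∈ S, M ≤ (aux g q K (q * c) k).roots.count x := by
    intro x hx
    rw [count_roots, le_rootMultiplicity_iff hA0]
    exact aux_dvd p N g a q K M (q * c) hQ hMQ k hk x (hS x hx).1 (hS x hx).2
  calc S.card * M = ∑ x ∈ S, M := by rw [Finset.sum_const, smul_eq_mul]
    _ ≤ ∑ x ∈ S, (aux g q K (q * c) k).roots.count x := Finset.sum_le_sum h1
    _ ≤ (aux g q K (q * c) k).roots.card := by
        rw [← Multiset.toFinset_sum_count_eq]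
        by_cases hsub : S ⊆ (aux g q K (q * c) k).roots.toFinset
        · exact Finset.sum_le_sum_of_subset hsub
        · calc ∑ x ∈ S, (aux g q K (q * c) k).roots.count x
              = ∑ x ∈ S ∩ (aux g q K (q * c) k).roots.toFinset, (aux g q K (q * c) k).roots.count x := by
                symm
                apply Finset.sum_subset Finset.inter_subset_left
                intro x hx hx'
                rw [Finset.mem_inter, not_and] at hx'
                have := hx' hx
                rwa [Multiset.mem_toFinset, ← Multiset.count_eq_zero] at this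
            _ ≤ _ := Finset.sum_le_sum_of_subset Finset.inter_subset_right
    _ ≤ (aux g q K (q * c) k).natDegree := card_roots' _
    _ ≤ _ := hAd

end Pool.Agent.H51.AW
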