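import Mathlib

/-!
# The additive bound of Weil, part 1: generic Taylor expansions

`tau h` is the expansion of `h (X + T)` in powers of `T` with coefficients in `E[X]`.
-/

set_option autoImplicit false

open Polynomial Finset

namespace Pool.Agent.H51.AW

variable {E : Type} [Field E]

/-- `h (X + T)` as a polynomial in `T` -/
noncomputable def tau (h : E[X]) : E[X][X] := taylor (X : E[X]) (h.map C)

theorem tau_mul (g h : E[X]) : tau (g * h) = tau g * tau h := by
  rw [tau, Polynomial.map_mul, taylor_mul]; rfl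

theorem tau_pow (h : E[X]) (n : ℕ) : tau (h ^ n) = tau h ^ n := by
  rw [tau, Polynomial.map_pow, taylor_pow]; rfl

theorem tau_add (g h : E[X]) : tau (g + h) = tau g + tau h := by
  rw [tau, Polynomial.map_add, map_add]; rfl

theorem tau_sum {ι : Type} (s : Finset ι) (h : ι → E[X]) : tau (∑ i ∈ s, h i) = ∑ i ∈ s, tau (h i) := by
  rw [tau, Polynomial.map_sum, map_sum]; rfl

theorem tau_smul (c : E) (h : E[X]) : tau (c • h) = C (C c) * tau h := by
  rw [smul_eq_C_mul, tau_mul, tau]
  congr 1
  rw [Polynomial.map_C, taylor_C]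

theorem tau_coeff (h : E[X]) (u : ℕ) : (tau h).coeff u = hasseDeriv u h := by
  rw [tau, taylor_coeff]
  induction h using Polynomial.induction_on' with
  | add p q hp hq => rw [Polynomial.map_add, map_add, eval_add, hp, hq, map_add]
  | monomial n a =>
    rw [map_monomial, hasseDeriv_monomial, hasseDeriv_monomial, eval_monomial]
    rw [← C_mul_X_pow_eq_monomial, map_mul]
    simp

/-- the specialisation of `tau h` -/
theorem tau_map (h : E[X]) (x : E) : (tau h).map (evalRingHom x) = taylor x h := by
  ext l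
  rw [coeff_map, tau_coeff, taylor_coeff]
  rfl

/-- the coefficients grow slowly -/
def Bd (e D : ℕ) (P : E[X][X]) : Prop := ∀ l, (P.coeff l).natDegree ≤ D + e * l

theorem Bd.mul {e D₁ D₂ : ℕ} {P Q : E[X][X]} (hP : Bd e D₁ P) (hQ : Bd e D₂ Q) :
    Bd e (D₁ + D₂) (P * Q) := by
  intro l
  rw [coeff_mul]
  refine natDegree_sum_le_of_forall_le _ _ fun x hx => ?_
  rw [HasAntidiagonal.mem_antidiagonal] at hx
  refine natDegree_mul_le.trans ?_
  have h1 := hP x.1
  have h2 := hQ x.2
  have h3 : e * l = e * x.1 + e * x.2 := by rw [← hx]; ring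
  omega

theorem Bd.one {e : ℕ} : Bd e 0 (1 : E[X][X]) := by
  intro l
  rw [coeff_one]
  split_ifs <;> simp

theorem Bd.pow {e : ℕ} {P : E[X][X]} (hP : Bd e 0 P) (i : ℕ) : Bd e 0 (P ^ i) := by
  induction i with
  | zero => rw [pow_zero]; exact Bd.one
  | succ i ih =>
    rw [pow_succ]
    simpa using ih.mul hP

theorem Bd.tau {e : ℕ} (h : E[X]) (D : ℕ) (hD : h.natDegree ≤ D) : Bd e D (tau h) := by
  intro l
  rw [tau_coeff]
  have := natDegree_hasseDeriv_le h l
  omega

/-- the coefficients of the expansion of `f ^ (p ^ r)` -/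
theorem tau_pow_coeff (p : ℕ) [Fact p.Prime] [CharP E p] (f : E[X]) (r v : ℕ) (hv : 1 ≤ v) :
    ((tau (f ^ p ^ r)).coeff v).natDegree ≤ (f.natDegree - 1) * v := by
  rw [tau_pow, ← map_iterateFrobenius_expand p, coeff_map, coeff_expand (pow_pos (Fact.out : p.Prime).pos r)]
  split_ifs with hdvd
  · obtain ⟨u, rfl⟩ := hdvd
    rw [Nat.mul_div_cancel_left u (pow_pos (Fact.out : p.Prime).pos r), iterateFrobenius_def, tau_coeff]
    refine (natDegree_pow_le).trans ?_
    have h1 := natDegree_hasseDeriv_le f u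
    have hu : 1 ≤ u := by
      rcases Nat.eq_zero_or_pos u with h | h
      · rw [h] at hv; simp at hv
      · exact h
    calc p ^ r * (hasseDeriv u f).natDegree ≤ p ^ r * (f.natDegree - u) := Nat.mul_le_mul_left _ h1
      _ ≤ p ^ r * ((f.natDegree - 1) * u) := Nat.mul_le_mul_left _ (by
        rcases Nat.lt_or_ge f.natDegree 1 with h | h
        · omega
        · calc f.natDegree - u ≤ f.natDegree - 1 := by omega
            _ = (f.natDegree - 1) * 1 := (mul_one _).symm
            _ ≤ _ := Nat.mul_le_mul_left _ hu)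
      _ = (f.natDegree - 1) * (p ^ r * u) := by ring
  · simp

end Pool.Agent.H51.AW
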